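import Pool.Agent.H73.KS.Kloos

/-!
# Kloosterman sums at `u b ^ k c ^ l`: both signs and the first two Weyl sums, over arbitrary sets of primes

Katz's question is about the angles `θ_p(a)` of the Kloosterman sums `S(a, 1; p)` for a fixed integer `a` and
varying primes `p`.  Let `b, c ≥ 2` be multiplicatively independent integers, for example `2` and `3`, and let
`u` be any integer.  Here `a = u b ^ k c ^ l` runs through the members of an exponential family; there are only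
`O((log A) ^ 2)` of them up to `A`.  For all pairs of exponents `1 ≤ k, l ≤ N`, except for `C N² X^(-1/40)` of
them, and for all `x` with `X ≤ x ≤ N^(1/3)`:

* the sums over the primes `p ≤ x`, `p ∤ a`, of `w(p) U_i(cos θ_p(a))`, `i = 1, 2`, are at most `C x^(39/40)` in
  absolute value, for arbitrary weights `w(p)` in `[-1, 1]` (`U_i` is the Chebyshev polynomial of the second kind;
  these are the first two Weyl sums for the measure of Sato and Tate);
* in every set `P` of primes each of the signs of `S(a, 1; p)` occurs, with `|S(a, 1; p)| > 2 η √p`, for at least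
  a proportion `1 / 8 - η` of the primes `p ≤ x`, `p ∤ a`, up to an error `C x^(39/40)`.

The constant `C` depends on `b` and `c` only.  Modulo a prime `p` the numbers `b ^ k c ^ l` fill only a subgroup,
whose order is at least `p^(3/5)` for almost all `p`; the proof uses the multiplicative Fourier coefficients of
the Kloosterman sum and of its square (Gauss and Jacobi sums), and the fact that `p - 1` and `q - 1` have small
common divisors on average.
-/

set_option autoImplicit false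

namespace Pool.Agent.Results.MP_6ea630_nt.ExponentialFamilies

open Finset

/-- The Kloosterman sum `S(a, 1; p)` (a real number). -/
noncomputable def kloosterman (a : ℤ) (p : ℕ) : ℝ :=
  ∑ x ∈ Finset.Ico 1 p, Real.cos (2 * Real.pi *
    ((((a : ZMod p) * (x : ZMod p) + (x : ZMod p)⁻¹).val : ℕ) : ℝ) / (p : ℝ))

/-- The angle `θ_p(a)` in `[0, π]`, `S(a, 1; p) = 2 √p cos θ_p(a)`. -/
noncomputable def angle (a : ℤ) (p : ℕ) : ℝ := Real.arccos (kloosterman a p / (2 * Real.sqrt p))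

open scoped Classical in
/-- The primes `p ≤ x` which do not divide `a`. -/
noncomputable def primes (a : ℤ) (x : ℕ) : Finset ℕ :=
  (Finset.range (x + 1)).filter fun p : ℕ => p.Prime ∧ ¬ (p : ℤ) ∣ a

/-- The weighted Weyl sum: the sum of `w(p) U_i(cos θ_p(a))` over the primes `p ≤ x`, `p ∤ a`. -/
noncomputable def weylSum (i : ℤ) (w : ℕ → ℝ) (a : ℤ) (x : ℕ) : ℝ :=
  ∑ p ∈ primes a x, w p * (Polynomial.Chebyshev.U ℝ i).eval (Real.cos (angle a p))

open scoped Classical in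
/-- The number of the primes `p ≤ x` in `P`, `p ∤ a`. -/
noncomputable def total (P : Set ℕ) (a : ℤ) (x : ℕ) : ℕ := ((primes a x).filter fun p => p ∈ P).card

open scoped Classical in
/-- The number of the primes `p ≤ x` in `P`, `p ∤ a`, with `σ S(a, 1; p) > 2 η √p` (`σ = 1` or `-1`). -/
noncomputable def signCount (P : Set ℕ) (σ η : ℝ) (a : ℤ) (x : ℕ) : ℕ :=
  ((primes a x).filter fun p => p ∈ P ∧ 2 * η * Real.sqrt p < σ * kloosterman a p).card

/-- The law for the integer `a` and all `x` with `X ≤ x ≤ N^(1/3)`. -/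
def Law (C : ℝ) (w : ℕ → ℝ) (P : Set ℕ) (X N : ℕ) (a : ℤ) : Prop :=
  ∀ x : ℕ, X ≤ x → x ^ 3 ≤ N →
    |weylSum 1 w a x| ≤ C * (x : ℝ) ^ (39 / 40 : ℝ) ∧
    |weylSum 2 w a x| ≤ C * (x : ℝ) ^ (39 / 40 : ℝ) ∧
    ∀ σ η : ℝ, σ = 1 ∨ σ = -1 → 0 ≤ η →
      (1 / 8 - η) * total P a x - C * (x : ℝ) ^ (39 / 40 : ℝ) ≤ signCount P σ η a x

open scoped Classical in
/-- The number of the pairs of exponents `1 ≤ k, l ≤ N` for which `u b ^ k c ^ l` is not good. -/
noncomputable def exceptions (b c : ℕ) (u : ℤ) (N : ℕ) (good : ℤ → Prop) : ℕ :=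
  ((Finset.Icc 1 N ×ˢ Finset.Icc 1 N).filter fun e : ℕ × ℕ =>
    ¬ good (u * (b : ℤ) ^ e.1 * (c : ℤ) ^ e.2)).card

section

open Pool.Agent.H73.KS
open Pool.Agent.Results.MP_6ea630_nt.AlmostAllSigns (klz)

theorem kl_eq (a : ℤ) (p : ℕ) : kloosterman a p = klz p (a : ZMod p) := rfl

theorem cos_angle (a : ℤ) {p : ℕ} (hp : p.Prime) :
    2 * Real.cos (angle a p) = W1 p (a : ZMod p) := by
  have fp : Fact p.Prime := ⟨hp⟩
  have h := abs_le.1 (W1_le (p := p) (a : ZMod p))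
  have hs : 0 < Real.sqrt p := Real.sqrt_pos.2 (by exact_mod_cast hp.pos)
  have h1 : kloosterman a p / (2 * Real.sqrt p) = W1 p (a : ZMod p) / 2 := by
    unfold W1
    rw [kl_eq]
    field_simp
  unfold angle
  rw [h1, Real.cos_arccos (by linarith [h.1]) (by linarith [h.2])]
  ring

theorem primes_eq (b c : ℕ) (u : ℤ) (x k l : ℕ) :
    primes (u * (b : ℤ) ^ (k + 1) * (c : ℤ) ^ (l + 1)) x = Qs b c (u * b * c) x := by
  unfold primes Qs
  refine filter_congr fun p _ => ?_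
  refine and_congr_right fun hp => ?_
  have hpi : Prime (p : ℤ) := Nat.prime_iff_prime_int.1 hp
  rw [hpi.dvd_mul, hpi.dvd_mul, hpi.dvd_mul, hpi.dvd_mul, hpi.dvd_pow_iff_dvd (Nat.succ_ne_zero _),
    hpi.dvd_pow_iff_dvd (Nat.succ_ne_zero _), Int.natCast_dvd_natCast, Int.natCast_dvd_natCast]
  tauto

theorem arg_eq (b c : ℕ) (u : ℤ) (k l : ℕ) :
    u * (b : ℤ) ^ (k + 1) * (c : ℤ) ^ (l + 1) = arg b c (u * b * c) k l := by
  unfold arg
  ring

theorem weyl_one (b c : ℕ) (u : ℤ) (w : ℕ → ℝ) (x k l : ℕ) :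
    weylSum 1 w (u * (b : ℤ) ^ (k + 1) * (c : ℤ) ^ (l + 1)) x =
      ∑ p ∈ Qs b c (u * b * c) x, w p * W1 p (arg b c (u * b * c) k l : ZMod p) := by
  unfold weylSum
  rw [primes_eq]
  refine sum_congr rfl fun p hp => ?_
  have hpp := (mem_Qs.1 hp).2.1
  rw [Polynomial.Chebyshev.U_one, Polynomial.eval_mul, Polynomial.eval_ofNat, Polynomial.eval_X,
    cos_angle _ hpp, arg_eq]

theorem weyl_two (b c : ℕ) (u : ℤ) (w : ℕ → ℝ) (x k l : ℕ) :
    weylSum 2 w (u * (b : ℤ) ^ (k + 1) * (c : ℤ) ^ (l + 1)) x =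
      ∑ p ∈ Qs b c (u * b * c) x, w p * W2 p (arg b c (u * b * c) k l : ZMod p) := by
  unfold weylSum
  rw [primes_eq]
  refine sum_congr rfl fun p hp => ?_
  have hpp := (mem_Qs.1 hp).2.1
  have fp : Fact p.Prime := ⟨hpp⟩
  have h := cos_angle (u * (b : ℤ) ^ (k + 1) * (c : ℤ) ^ (l + 1)) hpp
  rw [Polynomial.Chebyshev.U_two, Polynomial.eval_sub, Polynomial.eval_mul, Polynomial.eval_pow,
    Polynomial.eval_ofNat, Polynomial.eval_X, Polynomial.eval_one, W2_eq, ← arg_eq, ← h]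
  ring

theorem law_of (b c : ℕ) (u : ℤ) (w : ℕ → ℝ) (P : Set ℕ) (X N k l : ℕ) {K : ℝ} (hK : 0 ≤ K)
    (v : ℕ → ℝ) (hv : ∀ p, v p = (open scoped Classical in if p ∈ P then 1 else 0))
    (h1 : ¬ BadAt b c (u * b * c) (fun p a => w p * W1 p a) K X N (k, l))
    (h2 : ¬ BadAt b c (u * b * c) (fun p a => w p * W2 p a) K X N (k, l))
    (h3 : ¬ BadAt b c (u * b * c) (fun p a => v p * W1 p a) K X N (k, l))
    (h4 : ¬ BadAt b c (u * b * c) (fun p a => v p * W2 p a) K X N (k, l)) :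
    Law K w P X N (u * (b : ℤ) ^ (k + 1) * (c : ℤ) ^ (l + 1)) := by
  classical
  intro x hx hxN
  have key : ∀ (F : ∀ p : ℕ, ZMod p → ℝ), ¬ BadAt b c (u * b * c) F K X N (k, l) →
      |∑ p ∈ Qs b c (u * b * c) x, F p (arg b c (u * b * c) k l : ZMod p)| ≤
        K * (x : ℝ) ^ (39 / 40 : ℝ) := by
    intro F hF
    by_contra hcon
    push Not at hcon
    exact hF ⟨x, hx, hxN, hcon⟩
  have g1 := key _ h1
  have g2 := key _ h2
  have g3 := key _ h3
  have g4 := key _ h4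
  refine ⟨?_, ?_, ?_⟩
  · rw [weyl_one]
    exact g1
  · rw [weyl_two]
    exact g2
  · intro σ η hσ hη
    set Q := Qs b c (u * b * c) x with hQ
    set a : ℤ := u * (b : ℤ) ^ (k + 1) * (c : ℤ) ^ (l + 1) with ha
    have e1 : (signCount P σ η a x : ℝ) = ∑ p ∈ Q, v p *
        (if 2 * η < σ * W1 p (a : ZMod p) then 1 else 0) := by
      unfold signCount
      rw [ha, primes_eq, ← ha, ← hQ, card_filter]
      push_cast
      refine sum_congr rfl fun p hp => ?_
      rw [hQ] at hp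
      have hpp := (mem_Qs.1 hp).2.1
      have hs : 0 < Real.sqrt p := Real.sqrt_pos.2 (by exact_mod_cast hpp.pos)
      have h5 : (2 * η * Real.sqrt p < σ * kloosterman a p) ↔ 2 * η < σ * W1 p (a : ZMod p) := by
        unfold W1
        rw [← kl_eq, ← mul_div_assoc, lt_div_iff₀ hs]
      rw [hv p]
      by_cases h6 : p ∈ P
      · by_cases h7 : 2 * η < σ * W1 p (a : ZMod p)
        · rw [if_pos ⟨h6, h5.2 h7⟩, if_pos h6, if_pos h7, one_mul]
        · rw [if_neg (fun h => h7 (h5.1 h.2)), if_pos h6, if_neg h7, mul_zero]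
      · rw [if_neg (fun h => h6 h.1), if_neg h6, zero_mul]
    have e2 : (total P a x : ℝ) = ∑ p ∈ Q, v p := by
      unfold total
      rw [ha, primes_eq, ← hQ, card_filter]
      push_cast
      exact sum_congr rfl fun p _ => (hv p).symm
    have e3 : ∀ p ∈ Q, (1 / 8 - η) * v p + σ / 4 * (v p * W1 p (arg b c (u * b * c) k l : ZMod p)) +
        1 / 8 * (v p * W2 p (arg b c (u * b * c) k l : ZMod p)) ≤
        v p * (if 2 * η < σ * W1 p (a : ZMod p) then 1 else 0) := by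
      intro p hp
      rw [hQ] at hp
      have hpp := (mem_Qs.1 hp).2.1
      have fp : Fact p.Prime := ⟨hpp⟩
      rw [← arg_eq, ← ha, W2_eq]
      have h5 := minorant (W1_le (p := p) (a : ZMod p)) hσ hη
      have h6 : 0 ≤ v p := by
        rw [hv p]
        split_ifs <;> norm_num
      calc _ = v p * ((1 / 8 - η) + σ / 4 * W1 p (a : ZMod p) +
            1 / 8 * (W1 p (a : ZMod p) ^ 2 - 1)) := by ring
        _ ≤ _ := mul_le_mul_of_nonneg_left h5 h6
    have e4 := sum_le_sum e3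
    rw [sum_add_distrib, sum_add_distrib, ← mul_sum, ← mul_sum, ← mul_sum, ← e1, ← e2] at e4
    have hx0 : 0 ≤ K * (x : ℝ) ^ (39 / 40 : ℝ) := by positivity
    have g3' := abs_le.1 g3
    have g4' := abs_le.1 g4
    rcases hσ with rfl | rfl
    · nlinarith [g3'.1, g3'.2, g4'.1, g4'.2]
    · nlinarith [g3'.1, g3'.2, g4'.1, g4'.2]

end

theorem result (b c : ℕ) (hb : 2 ≤ b) (hc : 2 ≤ c) (hbc : ∀ i j : ℕ, b ^ i = c ^ j → i = 0) :
    ∃ C : ℝ, ∀ (u : ℤ) (w : ℕ → ℝ), (∀ p, |w p| ≤ 1) → ∀ (P : Set ℕ) (X N : ℕ), 1 ≤ X →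
      (exceptions b c u N (Law C w P X N) : ℝ) ≤ C * (N : ℝ) ^ 2 / (X : ℝ) ^ (1 / 40 : ℝ) := by
  classical
  set K : ℝ := 1 + 2 ^ 45 * 3 with hK
  set D : ℝ := 4 * ((42 + 32 * (b * c)) * 3 ^ 2) with hD
  have hK0 : 0 ≤ K := by positivity
  have hD0 : 0 ≤ D := by positivity
  refine ⟨max K (4 * D), fun u w hw P X N hX => ?_⟩
  set v : ℕ → ℝ := fun p => if p ∈ P then 1 else 0 with hv
  have hv1 : ∀ p, |v p| ≤ 1 := by
    intro p
    rw [hv]
    simp only
    split_ifs <;> simp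
  set E : (∀ p : ℕ, ZMod p → ℝ) → Finset (ℕ × ℕ) := fun F =>
    (range N ×ˢ range N).filter (Pool.Agent.H73.KS.BadAt b c (u * b * c) F K X N) with hE
  have hEc : ∀ F, Pool.Agent.H73.KS.Adm 3 F →
      ((E F).card : ℝ) ≤ D * (N : ℝ) ^ 2 / (X : ℝ) ^ (1 / 40 : ℝ) := by
    intro F hF
    have := Pool.Agent.H73.KS.all_scales b c hb hc hbc hF (u * b * c) (N := N) hX
    convert this using 3
  set U : Finset (ℕ × ℕ) := (E (fun p a => w p * Pool.Agent.H73.KS.W1 p a) ∪
    E (fun p a => w p * Pool.Agent.H73.KS.W2 p a)) ∪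
    (E (fun p a => v p * Pool.Agent.H73.KS.W1 p a) ∪
    E (fun p a => v p * Pool.Agent.H73.KS.W2 p a)) with hU
  have hUc : (U.card : ℝ) ≤ 4 * (D * (N : ℝ) ^ 2 / (X : ℝ) ^ (1 / 40 : ℝ)) := by
    have h1 : U.card ≤ ((E (fun p a => w p * Pool.Agent.H73.KS.W1 p a)).card +
        (E (fun p a => w p * Pool.Agent.H73.KS.W2 p a)).card) +
        ((E (fun p a => v p * Pool.Agent.H73.KS.W1 p a)).card +
        (E (fun p a => v p * Pool.Agent.H73.KS.W2 p a)).card) :=
      (card_union_le _ _).trans (Nat.add_le_add (card_union_le _ _) (card_union_le _ _))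
    have h2 : (U.card : ℝ) ≤ ((E (fun p a => w p * Pool.Agent.H73.KS.W1 p a)).card +
        (E (fun p a => w p * Pool.Agent.H73.KS.W2 p a)).card : ℝ) +
        ((E (fun p a => v p * Pool.Agent.H73.KS.W1 p a)).card +
        (E (fun p a => v p * Pool.Agent.H73.KS.W2 p a)).card) := by exact_mod_cast h1
    have h3 := hEc _ (Pool.Agent.H73.KS.adm_W1 hw)
    have h4 := hEc _ (Pool.Agent.H73.KS.adm_W2 hw)
    have h5 := hEc _ (Pool.Agent.H73.KS.adm_W1 hv1)
    have h6 := hEc _ (Pool.Agent.H73.KS.adm_W2 hv1)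
    linarith
  have hmono : ∀ a : ℤ, Law K w P X N a → Law (max K (4 * D)) w P X N a := by
    intro a h x hx hxN
    obtain ⟨h1, h2, h3⟩ := h x hx hxN
    have h4 : K * (x : ℝ) ^ (39 / 40 : ℝ) ≤ max K (4 * D) * (x : ℝ) ^ (39 / 40 : ℝ) :=
      mul_le_mul_of_nonneg_right (le_max_left _ _) (by positivity)
    exact ⟨h1.trans h4, h2.trans h4, fun σ η hσ hη => le_trans (by linarith) (h3 σ η hσ hη)⟩
  have hsub : ((Finset.Icc 1 N ×ˢ Finset.Icc 1 N).filter fun e : ℕ × ℕ =>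
      ¬ Law (max K (4 * D)) w P X N (u * (b : ℤ) ^ e.1 * (c : ℤ) ^ e.2)) ⊆
      U.image fun e => (e.1 + 1, e.2 + 1) := by
    rintro ⟨k, l⟩ he
    rw [mem_filter, mem_product, mem_Icc, mem_Icc] at he
    obtain ⟨⟨⟨hk1, hk2⟩, ⟨hl1, hl2⟩⟩, hbad⟩ := he
    simp only at hk1 hk2 hl1 hl2 hbad
    obtain ⟨k', rfl⟩ := Nat.exists_eq_add_of_le' hk1
    obtain ⟨l', rfl⟩ := Nat.exists_eq_add_of_le' hl1
    rw [mem_image]
    refine ⟨(k', l'), ?_, rfl⟩
    by_contra hcon
    apply hbad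
    apply hmono
    have hr : (k', l') ∈ range N ×ˢ range N := by
      rw [mem_product, mem_range, mem_range]
      exact ⟨by simp only; omega, by simp only; omega⟩
    have hn : ∀ F, (k', l') ∉ E F → ¬ Pool.Agent.H73.KS.BadAt b c (u * b * c) F K X N (k', l') := by
      intro F hF hB
      exact hF (mem_filter.2 ⟨hr, hB⟩)
    rw [hU, mem_union, mem_union, mem_union] at hcon
    push Not at hcon
    exact law_of b c u w P X N k' l' hK0 v (fun p => by rw [hv]) (hn _ hcon.1.1) (hn _ hcon.1.2)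
      (hn _ hcon.2.1) (hn _ hcon.2.2)
  have h1 : (exceptions b c u N (Law (max K (4 * D)) w P X N) : ℝ) ≤ (U.card : ℝ) := by
    unfold exceptions
    exact_mod_cast (card_le_card hsub).trans card_image_le
  refine h1.trans (hUc.trans ?_)
  calc 4 * (D * (N : ℝ) ^ 2 / (X : ℝ) ^ (1 / 40 : ℝ)) =
      4 * D * (N : ℝ) ^ 2 / (X : ℝ) ^ (1 / 40 : ℝ) := by ring
    _ ≤ max K (4 * D) * (N : ℝ) ^ 2 / (X : ℝ) ^ (1 / 40 : ℝ) := by
        have := le_max_right K (4 * D)
        gcongr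

end Pool.Agent.Results.MP_6ea630_nt.ExponentialFamilies
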