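import Pool.Agent.H73.CU.C
import Pool.Agent.H73.KS.Kloos
import Pool.Graph.R_pool_sql_team_seeded_b0a926ef.Results.MP_6ea630_nt.JointPolynomialArguments
import Pool.Graph.R_pool_sql_team_seeded_ab47071d.Results.MP_6ea630_nt.AlmostAllSigns

/-!
# The Kloosterman angles at the members `α n b ^ e(n) + V(n)` of exponential sequences

Here `e` is a polynomial and `V` is built from constants, powers `d ^ n` and sequences with
`V(n + 2) = P V(n + 1) + Q V(n)` by sums, products and the substitution of polynomials for `n`; for example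
the Cullen and Woodall numbers `n 2 ^ n ± 1`, or `n 2 ^ (n²) + F(n³) 3 ^ n` with the Fibonacci numbers `F(n)`.
There are only `O(log A)` members up to `A`.  For almost all members `a` the law for the angles of the
Kloosterman sums `S(G_i(a), 1; p)`, `G_i` arbitrary polynomials, at the primes `p ≤ x`, `p ≡ c` modulo `q`, holds
for ALL `x` from `X` up to a power of `n`, with square-root error against the finite-field model, and both signs of
`S(a, 1; p)` occur for a proportion of at least `1 / 4 - η` of the primes, with `|S(a, 1; p)| > η √p`.  For the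
finitely many primes `p` dividing a fixed number `α b D` nothing is claimed.
-/

set_option autoImplicit false

namespace Pool.Agent.Results.MP_6ea630_nt.ExponentialPolynomials

open Finset Polynomial

/-- The Kloosterman sum `S(n, 1; p)` (a real number). -/
noncomputable def kloosterman (p : ℕ) (n : ℤ) : ℝ :=
  ∑ x ∈ Ico 1 p, Real.cos (2 * Real.pi *
    ((((n : ZMod p) * (x : ZMod p) + (x : ZMod p)⁻¹).val : ℕ) : ℝ) / (p : ℝ))

open Classical in
/-- The angle `θ` in `[0, π]` with `2 p ^ (1 / 2) cos θ = S(n, 1; p)`, and `π / 2` if `p ∣ n`. -/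
noncomputable def angle (p : ℕ) (n : ℤ) : ℝ :=
  if (p : ℤ) ∣ n then Real.pi / 2 else Real.arccos (kloosterman p n / (2 * √p))

/-- The polynomials with natural coefficients, as functions. -/
inductive Exponent : (ℕ → ℕ) → Prop
  | id : Exponent fun n => n
  | const (c : ℕ) : Exponent fun _ => c
  | add (e f : ℕ → ℕ) : Exponent e → Exponent f → Exponent fun n => e n + f n
  | mul (e f : ℕ → ℕ) : Exponent e → Exponent f → Exponent fun n => e n * f n

/-- `ExpSeq D V`: the sequence `V` is built from constants, powers `d ^ n` and binary linear recurrences by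
sums, products and the substitution of polynomials for `n`; `D` is the product of the numbers `d` and
`Q (P² + 4 Q)` which are used. -/
inductive ExpSeq : ℤ → (ℕ → ℤ) → Prop
  | const (c : ℤ) : ExpSeq 1 fun _ => c
  | pow (d : ℤ) : ExpSeq d fun n => d ^ n
  | recurrence (P Q : ℤ) (V : ℕ → ℤ) (h : ∀ n, V (n + 2) = P * V (n + 1) + Q * V n) :
      ExpSeq (Q * (P ^ 2 + 4 * Q)) V
  | add (D D' : ℤ) (V V' : ℕ → ℤ) : ExpSeq D V → ExpSeq D' V' → ExpSeq (D * D') fun n => V n + V' n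
  | mul (D D' : ℤ) (V V' : ℕ → ℤ) : ExpSeq D V → ExpSeq D' V' → ExpSeq (D * D') fun n => V n * V' n
  | subst (D : ℤ) (V : ℕ → ℤ) (e : ℕ → ℕ) : ExpSeq D V → Exponent e → ExpSeq D fun n => V (e n)

open Classical in
/-- The odd primes `p ≤ x` which do not divide `D`. -/
noncomputable def primes (D : ℤ) (x : ℕ) : Finset ℕ :=
  (range (x + 1)).filter fun p : ℕ => p.Prime ∧ p ≠ 2 ∧ ¬ (p : ℤ) ∣ D

/-- The angles of the numbers `G_i(a)` at `p` are in the intervals `[u_i, v_i)`. -/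
def In {m : ℕ} (G : Fin m → ℤ[X]) (u v : Fin m → ℝ) (p : ℕ) (a : ℤ) : Prop :=
  ∀ i, u i ≤ angle p ((G i).eval a) ∧ angle p ((G i).eval a) < v i

open Classical in
/-- The number of the primes `p ≤ x`, `p ≡ c` modulo `q`, with `In`. -/
noncomputable def count {m : ℕ} (D : ℤ) (G : Fin m → ℤ[X]) (u v : Fin m → ℝ) (q c : ℕ) (a : ℤ)
    (x : ℕ) : ℕ :=
  ((primes D x).filter fun p => p % q = c ∧ In G u v p a).card

open Classical in
/-- The sum over the primes `p ≤ x`, `p ≡ c` modulo `q`, of the proportion of the residues `t` modulo `p` with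
`In`. -/
noncomputable def model {m : ℕ} (D : ℤ) (G : Fin m → ℤ[X]) (u v : Fin m → ℝ) (q c : ℕ)
    (x : ℕ) : ℝ :=
  ∑ p ∈ (primes D x).filter (fun p => p % q = c),
    (((range p).filter fun t : ℕ => In G u v p (t : ℤ)).card : ℝ) / p

open Classical in
/-- The number of the primes `p ≤ x`, `p ∤ a`, with `σ S(a, 1; p) > η √p`. -/
noncomputable def signCount (D : ℤ) (σ η : ℝ) (a : ℤ) (x : ℕ) : ℕ :=
  ((primes D x).filter fun p : ℕ => ¬ (p : ℤ) ∣ a ∧ η * √p < σ * kloosterman p a).card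

section

open Pool.Agent.H73.CU
open Pool.Agent.Results.MP_6ea630_nt.JointPolynomialArguments (angle_congr Th mem_Th card_Th snap
  snap_mem snap_le angle_lt)

theorem angle_eq (p : ℕ) (n : ℤ) : angle p n =
    Pool.Agent.Results.MP_6ea630_nt.JointPolynomialArguments.angle p n := rfl

theorem primes_eq (D : ℤ) (x : ℕ) : primes D x = pr D x := by
  classical
  ext p
  rw [mem_pr]
  unfold primes Gp
  rw [mem_filter, mem_range]
  constructor
  · rintro ⟨h1, h2⟩
    exact ⟨h2, by omega⟩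
  · rintro ⟨h1, h2⟩
    exact ⟨by omega, h1⟩

theorem Exponent.steady {e : ℕ → ℕ} (h : Exponent e) : Steady e := by
  induction h with
  | id => exact steady_id
  | const c => exact steady_const c
  | add e f _ _ h1 h2 => exact h1.add h2
  | mul e f _ _ h1 h2 => exact h1.mul h2

theorem ExpSeq.per2 {D : ℤ} {V : ℕ → ℤ} (h : ExpSeq D V) : Per2 D V := by
  induction h with
  | const c => exact per2_const c
  | pow d => exact per2_pow d
  | recurrence P Q V h => exact per2_rec P Q V h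
  | add D D' V V' _ _ h1 h2 => exact (h1.mono (dvd_mul_right _ _)).add (h2.mono (dvd_mul_left _ _))
  | mul D D' V V' _ _ h1 h2 => exact (h1.mono (dvd_mul_right _ _)).mul (h2.mono (dvd_mul_left _ _))
  | subst D V e _ he h1 => exact h1.comp he.steady

theorem in_congr {m : ℕ} (G : Fin m → ℤ[X]) (u v : Fin m → ℝ) (p : ℕ) {a b : ℤ}
    (h : (p : ℤ) ∣ a - b) : In G u v p a ↔ In G u v p b := by
  unfold In
  refine forall_congr' fun i => ?_
  have h1 : (p : ℤ) ∣ (G i).eval a - (G i).eval b :=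
    h.trans (Polynomial.sub_dvd_eval_sub a b (G i))
  rw [angle_eq, angle_eq, angle_congr p h1]

theorem in_snap {m : ℕ} (G : Fin m → ℤ[X]) (u v : Fin m → ℝ) {p x : ℕ} (hp : p.Prime)
    (hpx : p ≤ x) (a : ℤ) :
    In G (fun i => snap x (u i)) (fun i => snap x (v i)) p a ↔ In G u v p a := by
  unfold In
  refine forall_congr' fun i => ?_
  rw [angle_eq, snap_le hp hpx, ← not_le, snap_le hp hpx, not_le]

theorem mem_primes {D : ℤ} {x p : ℕ} (h : p ∈ primes D x) : p.Prime ∧ p ≤ x := by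
  rw [primes_eq, mem_pr] at h
  exact ⟨h.1.1, h.2⟩

/-- the indicator function -/
noncomputable def gg {m : ℕ} (G : Fin m → ℤ[X]) (s : ((Fin m → ℝ) × (Fin m → ℝ)) × ℕ × ℕ)
    (p : ℕ) (t : ZMod p) : ℝ :=
  open Classical in if p % s.2.1 = s.2.2 ∧ In G s.1.1 s.1.2 p (t.val : ℤ) then 1 else 0

theorem cnt_eq {m : ℕ} (D : ℤ) (G : Fin m → ℤ[X]) (s : ((Fin m → ℝ) × (Fin m → ℝ)) × ℕ × ℕ)
    (x : ℕ) (a : ℤ) : cnt D (gg G s) x a = (count D G s.1.1 s.1.2 s.2.1 s.2.2 a x : ℝ) := by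
  classical
  unfold cnt count
  rw [← primes_eq, card_filter]
  push_cast
  refine sum_congr rfl fun p hp => ?_
  have hpp := (mem_primes hp).1
  have : NeZero p := ⟨hpp.ne_zero⟩
  unfold gg
  have h1 : (p : ℤ) ∣ (((a : ZMod p).val : ℕ) : ℤ) - a := by
    rw [← ZMod.intCast_zmod_eq_zero_iff_dvd]
    push_cast
    rw [ZMod.natCast_val, ZMod.cast_id', id, sub_self]
  have h2 := in_congr G s.1.1 s.1.2 p h1
  by_cases h3 : p % s.2.1 = s.2.2 ∧ In G s.1.1 s.1.2 p a
  · rw [if_pos h3, if_pos ⟨h3.1, h2.2 h3.2⟩]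
  · rw [if_neg h3, if_neg fun h => h3 ⟨h.1, h2.1 h.2⟩]

theorem mdl_eq {m : ℕ} (D : ℤ) (G : Fin m → ℤ[X]) (s : ((Fin m → ℝ) × (Fin m → ℝ)) × ℕ × ℕ)
    (x : ℕ) : mdl D (gg G s) x = model D G s.1.1 s.1.2 s.2.1 s.2.2 x := by
  classical
  unfold mdl model
  rw [← primes_eq, sum_filter]
  refine sum_congr rfl fun p hp => ?_
  have hpp := (mem_primes hp).1
  unfold mean
  have e1 : ∀ t ∈ range p, gg G s p (t : ZMod p) =
      if p % s.2.1 = s.2.2 ∧ In G s.1.1 s.1.2 p (t : ℤ) then 1 else 0 := by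
    intro t ht
    rw [mem_range] at ht
    unfold gg
    rw [ZMod.val_cast_of_lt ht]
  rw [sum_congr rfl e1]
  by_cases h : p % s.2.1 = s.2.2
  · simp only [h, true_and, if_true]
    rw [sum_boole]
  · simp only [h, false_and, if_false, sum_const_zero, zero_div]

theorem law {m : ℕ} (A : ℕ) (δ : ℝ) (hδ : 0 < δ) : ∃ W X₀ : ℕ, 1 ≤ W ∧
    ∀ (G : Fin m → ℤ[X]) (D : ℤ) (a : ℕ → ℤ), Lin D a → ∀ X N : ℕ, X₀ ≤ X → ∀ T : Finset ℕ,
      (∀ j ∈ T, j < N ∧ ∃ x : ℕ, X ≤ x ∧ x ^ W ≤ N ∧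
        ∃ (u v : Fin m → ℝ) (q c : ℕ), 1 ≤ q ∧ q ≤ x ∧ c < q ∧
          √(max 1 (model D G u v q c x)) * (x : ℝ) ^ δ <
            |(count D G u v q c (a j) x : ℝ) - model D G u v q c x|) →
      (T.card : ℝ) * (X : ℝ) ^ A ≤ N := by
  classical
  obtain ⟨W, X₀, hW, hX₀, hgen⟩ := general δ A (6 * m + 2) hδ
  refine ⟨W, max X₀ 3, hW, ?_⟩
  intro G D a ha X N hX T hT
  have hX1 : X₀ ≤ X := (le_max_left _ _).trans hX
  have hX3 : 3 ≤ X := (le_max_right _ _).trans hX
  obtain ⟨R, hR⟩ : ∃ R : ℕ → Finset (((Fin m → ℝ) × (Fin m → ℝ)) × ℕ × ℕ), R = fun x : ℕ =>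
    if x < 3 then ∅ else ((Fintype.piFinset fun _ : Fin m => Th x) ×ˢ
      (Fintype.piFinset fun _ : Fin m => Th x)) ×ˢ (Icc 1 x ×ˢ range x) := ⟨_, rfl⟩
  have hRc : ∀ x, (R x).card ≤ x ^ (6 * m + 2) := by
    intro x
    rw [hR]
    simp only
    split_ifs with h
    · simp
    · push Not at h
      rw [card_product, card_product, card_product, Fintype.card_piFinset_const, Nat.card_Icc,
        card_range]
      have h2 := card_Th x h
      calc (Th x).card ^ m * (Th x).card ^ m * ((x + 1 - 1) * x) ≤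
          (x ^ 3) ^ m * (x ^ 3) ^ m * (x * x) := by
            apply Nat.mul_le_mul (Nat.mul_le_mul (Nat.pow_le_pow_left h2 m)
              (Nat.pow_le_pow_left h2 m))
            rw [Nat.add_sub_cancel]
        _ = x ^ (6 * m + 2) := by rw [← pow_mul]; ring
  refine hgen D a ha _ R (fun _ s => gg G s) hRc (fun x s p t => ?_) X N hX1 T fun j hj => ?_
  · unfold gg
    split_ifs <;> norm_num
  obtain ⟨hjN, x, hx1, hx2, u, v, q, c, hq1, hq2, hc, hbad⟩ := hT j hj
  refine ⟨hjN, x, hx1, hx2, ((fun i => snap x (u i), fun i => snap x (v i)), q, c), ?_, ?_⟩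
  · have hx3 : ¬ x < 3 := by omega
    rw [hR]
    simp only
    rw [if_neg hx3, mem_product, mem_product, mem_product, Fintype.mem_piFinset,
      Fintype.mem_piFinset, mem_Icc, mem_range]
    exact ⟨⟨fun i => snap_mem x (u i), fun i => snap_mem x (v i)⟩, ⟨hq1, hq2⟩,
      lt_of_lt_of_le hc hq2⟩
  · rw [cnt_eq, mdl_eq]
    simp only
    have e1 : count D G (fun i => snap x (u i)) (fun i => snap x (v i)) q c (a j) x =
        count D G u v q c (a j) x := by
      unfold count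
      congr 1
      refine filter_congr fun p hp => ?_
      rw [in_snap G u v (mem_primes hp).1 (mem_primes hp).2]
    have e2 : model D G (fun i => snap x (u i)) (fun i => snap x (v i)) q c x =
        model D G u v q c x := by
      unfold model
      refine sum_congr rfl fun p hp => ?_
      rw [mem_filter] at hp
      congr 3
      refine filter_congr fun t _ => ?_
      rw [in_snap G u v (mem_primes hp.1).1 (mem_primes hp.1).2]
    rw [e1, e2]
    exact hbad

theorem kl_eq (p : ℕ) (n : ℤ) : kloosterman p n =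
    Pool.Agent.Results.MP_6ea630_nt.AlmostAllSigns.klz p (n : ZMod p) := rfl

theorem kl_rk {p : ℕ} [Fact p.Prime] (n : ℤ) :
    kloosterman p n = Pool.Agent.TH375.KL.rk p (n : ZMod p) 1 := by
  rw [kl_eq, Pool.Agent.Results.MP_6ea630_nt.AlmostAllSigns.klz_eq]

theorem kl_abs {p : ℕ} (hp : p.Prime) (n : ℤ) : |kloosterman p n / (2 * √p)| ≤ 1 := by
  have : Fact p.Prime := ⟨hp⟩
  have h := Pool.Agent.H73.KS.weil (p := p) (n : ZMod p)
  have hs : 0 < √(p : ℝ) := Real.sqrt_pos.2 (by exact_mod_cast hp.pos)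
  rw [kl_rk, abs_div, abs_of_pos (by positivity : 0 < 2 * √(p : ℝ)),
    div_le_one (by positivity)]
  exact h

/-- a threshold for a finite set -/
theorem exists_thr (S : Finset ℝ) (w : ℝ) (h : ∃ θ ∈ S, w < θ) :
    ∃ w' : ℝ, ∀ θ ∈ S, w < θ ↔ w' ≤ θ := by
  classical
  have hne : (S.filter fun θ => w < θ).Nonempty := by
    obtain ⟨θ, h1, h2⟩ := h
    exact ⟨θ, mem_filter.2 ⟨h1, h2⟩⟩
  refine ⟨(S.filter fun θ => w < θ).min' hne, fun θ hθ => ⟨fun h1 => ?_, fun h1 => ?_⟩⟩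
  · exact min'_le _ _ (mem_filter.2 ⟨hθ, h1⟩)
  · exact lt_of_lt_of_le (mem_filter.1 (min'_mem _ hne)).2 h1

/-- the condition on the sign as a condition on the angle -/
theorem sign_event {σ η : ℝ} (hσ : σ = 1 ∨ σ = -1) (hη : 0 ≤ η) (hη1 : η ≤ 1 / 4) (x : ℕ) :
    ∃ u v : ℝ, ∀ p : ℕ, p.Prime → p ≤ x → ∀ n : ℤ,
      (u ≤ angle p n ∧ angle p n < v) ↔ (¬ (p : ℤ) ∣ n ∧ η * √p < σ * kloosterman p n) := by
  rcases hσ with rfl | rfl
  · refine ⟨0, Real.arccos (η / 2), fun p hp _ n => ?_⟩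
    have hs : 0 < √(p : ℝ) := Real.sqrt_pos.2 (by exact_mod_cast hp.pos)
    by_cases h : (p : ℤ) ∣ n
    · have h1 : angle p n = Real.pi / 2 := by unfold angle; rw [if_pos h]
      have h2 : Real.arccos (η / 2) ≤ Real.pi / 2 := Real.arccos_le_pi_div_two.2 (by linarith)
      rw [h1]
      constructor
      · rintro ⟨_, h3⟩
        linarith
      · rintro ⟨h3, _⟩
        exact absurd h h3
    · have h1 : angle p n = Real.arccos (kloosterman p n / (2 * √p)) := by
        unfold angle; rw [if_neg h]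
      have h2 := abs_le.1 (kl_abs hp n)
      have h3 : Real.arccos (kloosterman p n / (2 * √p)) < Real.arccos (η / 2) ↔
          η / 2 < kloosterman p n / (2 * √p) :=
        Real.strictAntiOn_arccos.lt_iff_gt ⟨h2.1, h2.2⟩ ⟨by linarith, by linarith⟩
      have h4 : η / 2 < kloosterman p n / (2 * √p) ↔ η * √p < 1 * kloosterman p n := by
        rw [lt_div_iff₀ (by positivity), one_mul]
        have : η / 2 * (2 * √(p : ℝ)) = η * √p := by ring
        rw [this]
      rw [h1, h3, h4]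
      constructor
      · rintro ⟨_, h5⟩
        exact ⟨h, h5⟩
      · rintro ⟨_, h5⟩
        exact ⟨Real.arccos_nonneg _, h5⟩
  · have h4 : (4 : ℝ) ∈ Th x := by
      classical
      unfold Th
      exact mem_insert_self _ _
    obtain ⟨w', hw'⟩ := exists_thr (Th x) (Real.arccos (-(η / 2)))
      ⟨4, h4, lt_of_le_of_lt (Real.arccos_le_pi _) Real.pi_lt_four⟩
    refine ⟨w', 4, fun p hp hpx n => ?_⟩
    have hs : 0 < √(p : ℝ) := Real.sqrt_pos.2 (by exact_mod_cast hp.pos)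
    have hmem : angle p n ∈ Th x := by
      rw [angle_eq]
      exact mem_Th hp hpx n
    have hlt : angle p n < 4 := by
      rw [angle_eq]
      exact angle_lt p n
    rw [← hw' _ hmem]
    by_cases h : (p : ℤ) ∣ n
    · have h1 : angle p n = Real.pi / 2 := by unfold angle; rw [if_pos h]
      have h2 : Real.pi / 2 ≤ Real.arccos (-(η / 2)) := by
        rw [Real.arccos_neg]
        have := Real.arccos_le_pi_div_two.2 (by linarith : 0 ≤ η / 2)
        linarith
      rw [h1]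
      constructor
      · rintro ⟨h3, _⟩
        linarith
      · rintro ⟨h3, _⟩
        exact absurd h h3
    · have h1 : angle p n = Real.arccos (kloosterman p n / (2 * √p)) := by
        unfold angle; rw [if_neg h]
      have h2 := abs_le.1 (kl_abs hp n)
      have h3 : Real.arccos (-(η / 2)) < Real.arccos (kloosterman p n / (2 * √p)) ↔
          kloosterman p n / (2 * √p) < -(η / 2) :=
        Real.strictAntiOn_arccos.lt_iff_gt ⟨by linarith, by linarith⟩ ⟨h2.1, h2.2⟩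
      have h4 : kloosterman p n / (2 * √p) < -(η / 2) ↔ η * √p < -1 * kloosterman p n := by
        rw [div_lt_iff₀ (by positivity)]
        have : -(η / 2) * (2 * √(p : ℝ)) = -(η * √p) := by ring
        rw [this]
        constructor <;> intro h5 <;> linarith
      rw [h1, h3, h4]
      constructor
      · rintro ⟨h5, _⟩
        exact ⟨h, h5⟩
      · rintro ⟨_, h5⟩
        refine ⟨h5, ?_⟩
        rw [← h1]
        exact hlt

theorem sum_sqrt (x : ℕ) : ∑ p ∈ Ioc 0 x, 1 / √(p : ℝ) ≤ 2 * √x := by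
  induction x with
  | zero => simp
  | succ n ih =>
    rw [sum_Ioc_succ_top (Nat.zero_le n)]
    have h1 : 0 < √((n + 1 : ℕ) : ℝ) := Real.sqrt_pos.2 (by positivity)
    have h2 : √((n + 1 : ℕ) : ℝ) ^ 2 = (n : ℝ) + 1 := by
      rw [Real.sq_sqrt (by positivity)]
      push_cast
      ring
    have h3 : √(n : ℝ) ^ 2 = n := Real.sq_sqrt (Nat.cast_nonneg _)
    have h4 : 1 / √((n + 1 : ℕ) : ℝ) ≤ 2 * √((n + 1 : ℕ) : ℝ) - 2 * √n := by
      rw [div_le_iff₀ h1]
      nlinarith [sq_nonneg (√((n + 1 : ℕ) : ℝ) - √n)]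
    linarith

/-- the proportion of the residues with a given sign -/
theorem vertical {p : ℕ} (hp : p.Prime) {σ η : ℝ} (hσ : σ = 1 ∨ σ = -1) (hη : 0 ≤ η)
    (S : Finset ℕ) (hS : ∀ t : ℕ, t ∈ S ↔ t < p ∧ ¬ (p : ℤ) ∣ (t : ℤ) ∧
      η * √p < σ * kloosterman p t) :
    1 / 4 - η - 2 * (1 / √(p : ℝ)) ≤ (S.card : ℝ) / p := by
  classical
  have fp : Fact p.Prime := ⟨hp⟩
  have hp0 : (0 : ℝ) < p := by exact_mod_cast hp.pos
  have hs0 : 0 < √(p : ℝ) := Real.sqrt_pos.2 hp0
  have hp1 : (1 : ℝ) ≤ p := by exact_mod_cast hp.one_le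
  have hs1 : 1 ≤ √(p : ℝ) := Real.one_le_sqrt.2 hp1
  have hσ2 : σ ^ 2 = 1 := by rcases hσ with h | h <;> rw [h] <;> norm_num
  have h1 := Pool.Agent.TH375.KL.sign_mean (p := p) hσ2 hη
  have h2 : ∑ a : ZMod p, (if η * √p < σ * Pool.Agent.TH375.KL.rk p a 1 then (1 : ℝ) else 0) ≤
      S.card + 1 := by
    have e1 : ∑ a : ZMod p, (if η * √p < σ * Pool.Agent.TH375.KL.rk p a 1 then (1 : ℝ) else 0) =
        ∑ t ∈ range p, (if η * √p < σ * kloosterman p (t : ℤ) then (1 : ℝ) else 0) := by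
      refine sum_nbij' ZMod.val (fun t : ℕ => (t : ZMod p)) ?_ ?_ ?_ ?_ ?_
      · intro a _
        rw [mem_range]
        exact ZMod.val_lt a
      · intro t _
        exact mem_univ _
      · intro a _
        exact ZMod.natCast_zmod_val a
      · intro t ht
        rw [mem_range] at ht
        exact ZMod.val_cast_of_lt ht
      · intro a _
        rw [kl_rk]
        push_cast
        rw [ZMod.natCast_zmod_val]
    rw [e1, sum_boole]
    have h3 : (range p).filter (fun t : ℕ => η * √p < σ * kloosterman p (t : ℤ)) ⊆ insert 0 S := by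
      intro t ht
      rw [mem_filter, mem_range] at ht
      rw [mem_insert]
      by_cases h0 : t = 0
      · exact Or.inl h0
      · right
        rw [hS]
        refine ⟨ht.1, ?_, ht.2⟩
        intro hd
        have : p ∣ t := by exact_mod_cast hd
        exact absurd (Nat.le_of_dvd (Nat.pos_of_ne_zero h0) this) (by omega)
    have h4 := (card_le_card h3).trans (card_insert_le _ _)
    exact_mod_cast h4
  have h3 : (1 / 4 - η - 1 / √(p : ℝ)) * p - 1 ≤ S.card := by linarith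
  rw [le_div_iff₀ hp0]
  have h4 : 1 ≤ 1 / √(p : ℝ) * p := by
    have : 1 / √(p : ℝ) * p = √p := by
      rw [div_mul_eq_mul_div, one_mul, Real.div_sqrt]
    rw [this]
    exact hs1
  nlinarith

theorem signs (A : ℕ) (δ : ℝ) (hδ : 0 < δ) : ∃ W X₀ : ℕ, 1 ≤ W ∧
    ∀ (D : ℤ) (a : ℕ → ℤ), Lin D a → ∀ X N : ℕ, X₀ ≤ X → ∀ T : Finset ℕ,
      (∀ j ∈ T, j < N ∧ ∃ x : ℕ, X ≤ x ∧ x ^ W ≤ N ∧ ∃ σ η : ℝ, (σ = 1 ∨ σ = -1) ∧ 0 ≤ η ∧
        (signCount D σ η (a j) x : ℝ) <
          (1 / 4 - η) * (primes D x).card - 5 * (x : ℝ) ^ (1 / 2 + δ)) →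
      (T.card : ℝ) * (X : ℝ) ^ A ≤ N := by
  classical
  obtain ⟨W, X₀, hW, hlaw⟩ := law (m := 1) A δ hδ
  refine ⟨W, max X₀ 1, hW, ?_⟩
  intro D a ha X N hX T hT
  have hX1 : X₀ ≤ X := (le_max_left _ _).trans hX
  have hX2 : 1 ≤ X := (le_max_right _ _).trans hX
  refine hlaw (fun _ => Polynomial.X) D a ha X N hX1 T fun j hj => ?_
  obtain ⟨hjN, x, hx1, hx2, σ, η, hσ, hη, hbad⟩ := hT j hj
  have hx : 1 ≤ x := hX2.trans hx1
  have hxr : (1 : ℝ) ≤ x := by exact_mod_cast hx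
  have hx0 : (0 : ℝ) < x := by linarith
  have hpow : (x : ℝ) ^ (1 / 2 + δ) = √x * (x : ℝ) ^ δ := by
    rw [Real.rpow_add hx0, Real.sqrt_eq_rpow]
  have hxδ : 1 ≤ (x : ℝ) ^ δ := Real.one_le_rpow hxr hδ.le
  have hsx : 1 ≤ √(x : ℝ) := Real.one_le_sqrt.2 hxr
  have hpow0 : 0 < (x : ℝ) ^ (1 / 2 + δ) := Real.rpow_pos_of_pos hx0 _
  have hPc : ((primes D x).card : ℝ) ≤ x := by
    have h2 : primes D x ⊆ Ioc 0 x := by
      intro p hp
      have := mem_primes hp
      rw [mem_Ioc]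
      exact ⟨this.1.pos, this.2⟩
    have h3 := card_le_card h2
    rw [Nat.card_Ioc, Nat.sub_zero] at h3
    exact_mod_cast h3
  have hη1 : η ≤ 1 / 4 := by
    by_contra hcon
    push Not at hcon
    have h1 : (0 : ℝ) ≤ signCount D σ η (a j) x := Nat.cast_nonneg _
    have h2 : (1 / 4 - η) * ((primes D x).card : ℝ) ≤ 0 :=
      mul_nonpos_of_nonpos_of_nonneg (by linarith) (Nat.cast_nonneg _)
    linarith
  obtain ⟨u, v, huv⟩ := sign_event hσ hη hη1 x
  have hin : ∀ p : ℕ, p ∈ primes D x → ∀ n : ℤ,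
      In (fun _ : Fin 1 => (Polynomial.X : ℤ[X])) (fun _ => u) (fun _ => v) p n ↔
      (¬ (p : ℤ) ∣ n ∧ η * √p < σ * kloosterman p n) := by
    intro p hp n
    rw [← huv p (mem_primes hp).1 (mem_primes hp).2 n]
    unfold In
    simp only [Polynomial.eval_X, forall_const]
  refine ⟨hjN, x, hx1, hx2, fun _ => u, fun _ => v, 1, 0, le_refl _, hx, by norm_num, ?_⟩
  have e1 : count D (fun _ : Fin 1 => (Polynomial.X : ℤ[X])) (fun _ => u) (fun _ => v) 1 0 (a j) x =
      signCount D σ η (a j) x := by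
    unfold count signCount
    congr 1
    refine filter_congr fun p hp => ?_
    rw [hin p hp]
    simp only [Nat.mod_one, true_and]
  have hmodel : model D (fun _ : Fin 1 => (Polynomial.X : ℤ[X])) (fun _ => u) (fun _ => v) 1 0 x =
      ∑ p ∈ primes D x, (((range p).filter fun t : ℕ =>
        ¬ (p : ℤ) ∣ (t : ℤ) ∧ η * √p < σ * kloosterman p (t : ℤ)).card : ℝ) / p := by
    unfold model
    have h1 : (primes D x).filter (fun p => p % 1 = 0) = primes D x := by
      rw [filter_eq_self]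
      intro p _
      exact Nat.mod_one p
    rw [h1]
    refine sum_congr rfl fun p hp => ?_
    congr 3
    exact filter_congr fun t _ => hin p hp t
  have hlow : (1 / 4 - η) * ((primes D x).card : ℝ) - 4 * √x ≤
      model D (fun _ : Fin 1 => (Polynomial.X : ℤ[X])) (fun _ => u) (fun _ => v) 1 0 x := by
    rw [hmodel]
    have h1 : ∑ p ∈ primes D x, (1 / 4 - η - 2 * (1 / √(p : ℝ))) ≤
        ∑ p ∈ primes D x, (((range p).filter fun t : ℕ =>
        ¬ (p : ℤ) ∣ (t : ℤ) ∧ η * √p < σ * kloosterman p (t : ℤ)).card : ℝ) / p := by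
      refine sum_le_sum fun p hp => ?_
      refine vertical (mem_primes hp).1 hσ hη _ fun t => ?_
      rw [mem_filter, mem_range]
    rw [sum_sub_distrib, sum_const, nsmul_eq_mul, ← mul_sum] at h1
    have h2 : ∑ p ∈ primes D x, 1 / √(p : ℝ) ≤ ∑ p ∈ Ioc 0 x, 1 / √(p : ℝ) := by
      refine sum_le_sum_of_subset_of_nonneg ?_ fun _ _ _ => by positivity
      intro p hp
      have := mem_primes hp
      rw [mem_Ioc]
      exact ⟨this.1.pos, this.2⟩
    have h3 := sum_sqrt x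
    linarith
  have hup : model D (fun _ : Fin 1 => (Polynomial.X : ℤ[X])) (fun _ => u) (fun _ => v) 1 0 x ≤
      x := by
    rw [hmodel]
    refine le_trans (sum_le_sum (g := fun _ => (1 : ℝ)) fun p hp => ?_) ?_
    · have hp0 : (0 : ℝ) < p := by exact_mod_cast (mem_primes hp).1.pos
      rw [div_le_one hp0]
      have := card_filter_le (range p) fun t : ℕ =>
        ¬ (p : ℤ) ∣ (t : ℤ) ∧ η * √p < σ * kloosterman p (t : ℤ)
      rw [card_range] at this
      exact_mod_cast this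
    · rw [sum_const, nsmul_eq_mul, mul_one]
      exact hPc
  rw [e1]
  set Mo := model D (fun _ : Fin 1 => (Polynomial.X : ℤ[X])) (fun _ => u) (fun _ => v) 1 0 x
    with hMo
  have h1 : √(max 1 Mo) ≤ √x := Real.sqrt_le_sqrt (max_le hxr hup)
  have h2 : √(max 1 Mo) * (x : ℝ) ^ δ ≤ (x : ℝ) ^ (1 / 2 + δ) := by
    rw [hpow]
    exact mul_le_mul_of_nonneg_right h1 (by linarith)
  have h3 : √(x : ℝ) ≤ (x : ℝ) ^ (1 / 2 + δ) := by
    rw [hpow]
    nlinarith
  have h4 : (x : ℝ) ^ (1 / 2 + δ) < Mo - signCount D σ η (a j) x := by linarith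
  calc √(max 1 Mo) * (x : ℝ) ^ δ ≤ (x : ℝ) ^ (1 / 2 + δ) := h2
    _ < Mo - signCount D σ η (a j) x := h4
    _ ≤ |(signCount D σ η (a j) x : ℝ) - Mo| := by
      rw [abs_sub_comm]
      exact le_abs_self _

end

theorem result (m A : ℕ) (δ : ℝ) (hδ : 0 < δ) : ∃ W X₀ : ℕ, 1 ≤ W ∧
    ∀ (α b D : ℤ) (e : ℕ → ℕ) (V : ℕ → ℤ), Exponent e → ExpSeq D V → ∀ a : ℕ → ℤ,
      (∀ n, a n = α * n * b ^ e n + V n) → ∀ X N : ℕ, X₀ ≤ X →
      (∀ G : Fin m → ℤ[X],
        (({j : ℕ | j < N ∧ ∃ x : ℕ, X ≤ x ∧ x ^ W ≤ N ∧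
          ∃ (u v : Fin m → ℝ) (q c : ℕ), 1 ≤ q ∧ q ≤ x ∧ c < q ∧
            √(max 1 (model (α * b * D) G u v q c x)) * (x : ℝ) ^ δ <
              |(count (α * b * D) G u v q c (a j) x : ℝ) - model (α * b * D) G u v q c x|}).ncard
                : ℝ) * (X : ℝ) ^ A ≤ N) ∧
      (({j : ℕ | j < N ∧ ∃ x : ℕ, X ≤ x ∧ x ^ W ≤ N ∧ ∃ σ η : ℝ, (σ = 1 ∨ σ = -1) ∧ 0 ≤ η ∧
          (signCount (α * b * D) σ η (a j) x : ℝ) <
            (1 / 4 - η) * (primes (α * b * D) x).card - 5 * (x : ℝ) ^ (1 / 2 + δ)}).ncard : ℝ) *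
        (X : ℝ) ^ A ≤ N := by
  classical
  obtain ⟨W₁, X₁, hW₁, h₁⟩ := law (m := m) A δ hδ
  obtain ⟨W₂, X₂, hW₂, h₂⟩ := signs A δ hδ
  refine ⟨max W₁ W₂, max (max X₁ X₂) 1, hW₁.trans (le_max_left _ _), ?_⟩
  intro α b D e V he hV a haV X N hX
  have hX1 : X₁ ≤ X := ((le_max_left _ _).trans (le_max_left _ _)).trans hX
  have hX2 : X₂ ≤ X := ((le_max_right _ _).trans (le_max_left _ _)).trans hX
  have hX3 : 1 ≤ X := (le_max_right _ _).trans hX
  have hlin : Pool.Agent.H73.CU.Lin (α * b * D) a := by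
    have : a = fun n => α * n * b ^ e n + V n := funext haV
    rw [this]
    exact Pool.Agent.H73.CU.lin_of α b D he.steady hV.per2
  refine ⟨fun G => ?_, ?_⟩
  · have hfin : ({j : ℕ | j < N ∧ ∃ x : ℕ, X ≤ x ∧ x ^ (max W₁ W₂) ≤ N ∧
          ∃ (u v : Fin m → ℝ) (q c : ℕ), 1 ≤ q ∧ q ≤ x ∧ c < q ∧
            √(max 1 (model (α * b * D) G u v q c x)) * (x : ℝ) ^ δ <
              |(count (α * b * D) G u v q c (a j) x : ℝ) - model (α * b * D) G u v q c x|} :
          Set ℕ).Finite :=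
      (Set.finite_Iio N).subset fun j hj => hj.1
    rw [Set.ncard_eq_toFinset_card _ hfin]
    refine h₁ G _ a hlin X N hX1 _ fun j hj => ?_
    obtain ⟨hjN, x, hx1, hx2, hrest⟩ := (Set.Finite.mem_toFinset hfin).1 hj
    exact ⟨hjN, x, hx1, (Nat.pow_le_pow_right (hX3.trans hx1) (le_max_left _ _)).trans hx2, hrest⟩
  · have hfin : ({j : ℕ | j < N ∧ ∃ x : ℕ, X ≤ x ∧ x ^ (max W₁ W₂) ≤ N ∧
          ∃ σ η : ℝ, (σ = 1 ∨ σ = -1) ∧ 0 ≤ η ∧
          (signCount (α * b * D) σ η (a j) x : ℝ) <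
            (1 / 4 - η) * (primes (α * b * D) x).card - 5 * (x : ℝ) ^ (1 / 2 + δ)} :
          Set ℕ).Finite :=
      (Set.finite_Iio N).subset fun j hj => hj.1
    rw [Set.ncard_eq_toFinset_card _ hfin]
    refine h₂ _ a hlin X N hX2 _ fun j hj => ?_
    obtain ⟨hjN, x, hx1, hx2, hrest⟩ := (Set.Finite.mem_toFinset hfin).1 hj
    exact ⟨hjN, x, hx1, (Nat.pow_le_pow_right (hX3.trans hx1) (le_max_right _ _)).trans hx2, hrest⟩

end Pool.Agent.Results.MP_6ea630_nt.ExponentialPolynomials
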