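import Pool.Agent.H73.RK.Var
import Pool.Agent.H73.KS.Kloos

/-!
# Kloosterman sums at `u b ^ k`: both signs and the first two Weyl sums, over arbitrary sets of primes

Katz's question is about the angles `θ_p(a)` of the Kloosterman sums `S(a, 1; p)` for a fixed integer `a` and
varying primes `p`.  Let `b` be an integer with `|b| ≥ 2`, for example `b = 2`.  Here `a = u b ^ k` runs through a
geometric progression.  For every `η > 0` there is a constant `C` (depending on `b` and `η` only) such that for all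
`x ≥ C` and `N ≥ C x`, for all but `η N` of the exponents `1 ≤ k ≤ N` the integer `a = u b ^ k` has the following
properties:

* the sums over the primes `p ≤ x`, `p ∤ a`, of `w(p) U_i(cos θ_p(a))`, `i = 1, 2`, are at most `η π(x)` in
  absolute value, for arbitrary given weights `w(p)` in `[-1, 1]` (`U_i` is the Chebyshev polynomial of the second
  kind; these are the first two Weyl sums for the measure of Sato and Tate);
* in every given set `P` of primes each of the signs of `S(a, 1; p)` occurs, with `|S(a, 1; p)| > 2 θ √p`, for at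
  least a proportion `1 / 8 - θ` of the primes `p ≤ x`, `p ∤ a`, up to an error `η π(x)`.

In particular (`b = 2`, `u = 1`, all primes) for almost all `k` a proportion of at least `1 / 8 - o(1)` of the sums
`S(2 ^ k, 1; p)`, `p ≤ x`, is positive, and likewise negative, as soon as `x → ∞` and `x = o(N)`, `k ≤ N`.

Modulo a prime `p` the numbers `b ^ k` fill only the subgroup generated by `b`.  The proof needs, and contains a
proof of, the theorem of Erdős that the order of `b` modulo `p` exceeds `K √p` for almost all primes `p`, for every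
`K` (shifted primes `p - 1` rarely have a divisor near `√p`).
-/

set_option autoImplicit false

namespace Pool.Agent.Results.MP_6ea630_nt.GeometricProgressions

open Finset

/-- The Kloosterman sum `S(a, 1; p)` (a real number). -/
noncomputable def kloosterman (a : ℤ) (p : ℕ) : ℝ :=
  ∑ x ∈ Finset.Ico 1 p, Real.cos (2 * Real.pi *
    ((((a : ZMod p) * (x : ZMod p) + (x : ZMod p)⁻¹).val : ℕ) : ℝ) / (p : ℝ))

/-- The angle `θ_p(a)` in `[0, π]`, `S(a, 1; p) = 2 √p cos θ_p(a)`. -/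
noncomputable def angle (a : ℤ) (p : ℕ) : ℝ := Real.arccos (kloosterman a p / (2 * Real.sqrt p))

open scoped Classical in
/-- The primes `p ≤ x` which do not divide `a`. -/
noncomputable def primes (a : ℤ) (x : ℕ) : Finset ℕ :=
  (Finset.range (x + 1)).filter fun p : ℕ => p.Prime ∧ ¬ (p : ℤ) ∣ a

/-- The weighted Weyl sum: the sum of `w(p) U_i(cos θ_p(a))` over the primes `p ≤ x`, `p ∤ a`. -/
noncomputable def weylSum (i : ℤ) (w : ℕ → ℝ) (a : ℤ) (x : ℕ) : ℝ :=
  ∑ p ∈ primes a x, w p * (Polynomial.Chebyshev.U ℝ i).eval (Real.cos (angle a p))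

open scoped Classical in
/-- The number of the primes `p ≤ x` in `P`, `p ∤ a`. -/
noncomputable def total (P : Set ℕ) (a : ℤ) (x : ℕ) : ℕ := ((primes a x).filter fun p => p ∈ P).card

open scoped Classical in
/-- The number of the primes `p ≤ x` in `P`, `p ∤ a`, with `σ S(a, 1; p) > 2 θ √p` (`σ = 1` or `-1`). -/
noncomputable def signCount (P : Set ℕ) (σ θ : ℝ) (a : ℤ) (x : ℕ) : ℕ :=
  ((primes a x).filter fun p => p ∈ P ∧ 2 * θ * Real.sqrt p < σ * kloosterman a p).card

/-- The law for the integer `a` and the primes up to `x`. -/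
def Law (η : ℝ) (w : ℕ → ℝ) (P : Set ℕ) (x : ℕ) (a : ℤ) : Prop :=
  |weylSum 1 w a x| ≤ η * Nat.primeCounting x ∧
  |weylSum 2 w a x| ≤ η * Nat.primeCounting x ∧
  ∀ σ θ : ℝ, σ = 1 ∨ σ = -1 → 0 ≤ θ →
    (1 / 8 - θ) * total P a x - η * Nat.primeCounting x ≤ signCount P σ θ a x

open scoped Classical in
/-- The number of the exponents `1 ≤ k ≤ N` for which `u b ^ k` is not good. -/
noncomputable def exceptions (b u : ℤ) (N : ℕ) (good : ℤ → Prop) : ℕ :=
  ((Finset.Icc 1 N).filter fun k : ℕ => ¬ good (u * b ^ k)).card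

section

open Pool.Agent.H73.KS
open Pool.Agent.H73.RK (Qr mem_Qr)
open Pool.Agent.Results.MP_6ea630_nt.AlmostAllSigns (klz)

theorem kl_eq (a : ℤ) (p : ℕ) : kloosterman a p = klz p (a : ZMod p) := rfl

theorem cos_angle (a : ℤ) {p : ℕ} (hp : p.Prime) :
    2 * Real.cos (angle a p) = W1 p (a : ZMod p) := by
  have fp : Fact p.Prime := ⟨hp⟩
  have h := abs_le.1 (W1_le (p := p) (a : ZMod p))
  have hs : 0 < Real.sqrt p := Real.sqrt_pos.2 (by exact_mod_cast hp.pos)
  have h1 : kloosterman a p / (2 * Real.sqrt p) = W1 p (a : ZMod p) / 2 := by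
    unfold W1
    rw [kl_eq]
    field_simp
  unfold angle
  rw [h1, Real.cos_arccos (by linarith [h.1]) (by linarith [h.2])]
  ring

theorem primes_eq (b u : ℤ) (x : ℕ) {k : ℕ} (hk : 1 ≤ k) : primes (u * b ^ k) x = Qr b u x := by
  unfold primes Qr
  refine filter_congr fun p _ => ?_
  refine and_congr_right fun hp => ?_
  have hpi : Prime (p : ℤ) := Nat.prime_iff_prime_int.1 hp
  rw [hpi.dvd_mul, hpi.dvd_pow_iff_dvd (by omega)]
  tauto

theorem weyl_one (b u : ℤ) (w : ℕ → ℝ) (x : ℕ) {k : ℕ} (hk : 1 ≤ k) :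
    weylSum 1 w (u * b ^ k) x = ∑ p ∈ Qr b u x, w p * W1 p ((u * b ^ k : ℤ) : ZMod p) := by
  unfold weylSum
  rw [primes_eq b u x hk]
  refine sum_congr rfl fun p hp => ?_
  rw [Polynomial.Chebyshev.U_one, Polynomial.eval_mul, Polynomial.eval_ofNat, Polynomial.eval_X,
    cos_angle _ (mem_Qr.1 hp).2.1]

theorem weyl_two (b u : ℤ) (w : ℕ → ℝ) (x : ℕ) {k : ℕ} (hk : 1 ≤ k) :
    weylSum 2 w (u * b ^ k) x = ∑ p ∈ Qr b u x, w p * W2 p ((u * b ^ k : ℤ) : ZMod p) := by
  unfold weylSum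
  rw [primes_eq b u x hk]
  refine sum_congr rfl fun p hp => ?_
  have hpp := (mem_Qr.1 hp).2.1
  have fp : Fact p.Prime := ⟨hpp⟩
  have h := cos_angle (u * b ^ k) hpp
  rw [Polynomial.Chebyshev.U_two, Polynomial.eval_sub, Polynomial.eval_mul, Polynomial.eval_pow,
    Polynomial.eval_ofNat, Polynomial.eval_X, Polynomial.eval_one, W2_eq, ← h]
  ring

theorem law_of (b u : ℤ) (w : ℕ → ℝ) (P : Set ℕ) (x : ℕ) {k : ℕ} (hk : 1 ≤ k) {η : ℝ} (hη : 0 ≤ η)
    (v : ℕ → ℝ) (hv : ∀ p, v p = (open scoped Classical in if p ∈ P then 1 else 0))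
    (g1 : |∑ p ∈ Qr b u x, w p * W1 p ((u * b ^ k : ℤ) : ZMod p)| ≤ η * Nat.primeCounting x)
    (g2 : |∑ p ∈ Qr b u x, w p * W2 p ((u * b ^ k : ℤ) : ZMod p)| ≤ η * Nat.primeCounting x)
    (g3 : |∑ p ∈ Qr b u x, v p * W1 p ((u * b ^ k : ℤ) : ZMod p)| ≤ η * Nat.primeCounting x)
    (g4 : |∑ p ∈ Qr b u x, v p * W2 p ((u * b ^ k : ℤ) : ZMod p)| ≤ η * Nat.primeCounting x) :
    Law η w P x (u * b ^ k) := by
  classical
  refine ⟨?_, ?_, ?_⟩
  · rw [weyl_one b u w x hk]
    exact g1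
  · rw [weyl_two b u w x hk]
    exact g2
  · intro σ θ hσ hθ
    set Q := Qr b u x with hQ
    set a : ℤ := u * b ^ k with ha
    have e1 : (signCount P σ θ a x : ℝ) = ∑ p ∈ Q, v p *
        (if 2 * θ < σ * W1 p (a : ZMod p) then 1 else 0) := by
      unfold signCount
      rw [ha, primes_eq b u x hk, ← ha, ← hQ, card_filter]
      push_cast
      refine sum_congr rfl fun p hp => ?_
      rw [hQ] at hp
      have hpp := (mem_Qr.1 hp).2.1
      have hs : 0 < Real.sqrt p := Real.sqrt_pos.2 (by exact_mod_cast hpp.pos)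
      have h5 : (2 * θ * Real.sqrt p < σ * kloosterman a p) ↔ 2 * θ < σ * W1 p (a : ZMod p) := by
        unfold W1
        rw [← kl_eq, ← mul_div_assoc, lt_div_iff₀ hs]
      rw [hv p]
      by_cases h6 : p ∈ P
      · by_cases h7 : 2 * θ < σ * W1 p (a : ZMod p)
        · rw [if_pos ⟨h6, h5.2 h7⟩, if_pos h6, if_pos h7, one_mul]
        · rw [if_neg (fun h => h7 (h5.1 h.2)), if_pos h6, if_neg h7, mul_zero]
      · rw [if_neg (fun h => h6 h.1), if_neg h6, zero_mul]
    have e2 : (total P a x : ℝ) = ∑ p ∈ Q, v p := by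
      unfold total
      rw [ha, primes_eq b u x hk, ← hQ, card_filter]
      push_cast
      exact sum_congr rfl fun p _ => (hv p).symm
    have e3 : ∀ p ∈ Q, (1 / 8 - θ) * v p + σ / 4 * (v p * W1 p (a : ZMod p)) +
        1 / 8 * (v p * W2 p (a : ZMod p)) ≤
        v p * (if 2 * θ < σ * W1 p (a : ZMod p) then 1 else 0) := by
      intro p hp
      rw [hQ] at hp
      have hpp := (mem_Qr.1 hp).2.1
      have fp : Fact p.Prime := ⟨hpp⟩
      rw [W2_eq]
      have h5 := minorant (W1_le (p := p) (a : ZMod p)) hσ hθ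
      have h6 : 0 ≤ v p := by
        rw [hv p]
        split_ifs <;> norm_num
      calc _ = v p * ((1 / 8 - θ) + σ / 4 * W1 p (a : ZMod p) +
            1 / 8 * (W1 p (a : ZMod p) ^ 2 - 1)) := by ring
        _ ≤ _ := mul_le_mul_of_nonneg_left h5 h6
    have e4 := sum_le_sum e3
    rw [sum_add_distrib, sum_add_distrib, ← mul_sum, ← mul_sum, ← mul_sum, ← e1, ← e2] at e4
    have hx0 : 0 ≤ η * Nat.primeCounting x := by positivity
    have g3' := abs_le.1 g3
    have g4' := abs_le.1 g4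
    rcases hσ with rfl | rfl
    · nlinarith [g3'.1, g3'.2, g4'.1, g4'.2]
    · nlinarith [g3'.1, g3'.2, g4'.1, g4'.2]

/-- Chebyshev's lower bound -/
theorem pi_lower : ∃ x₀ : ℕ, ∀ x : ℕ, x₀ ≤ x →
    1 / 4 * ((x : ℝ) / Real.log x) ≤ Nat.primeCounting x := by
  refine ⟨256, fun x hx => ?_⟩
  have h := Chebyshev.pi_ge x
  have hx' : (256 : ℝ) ≤ x := by exact_mod_cast hx
  have hlx : 0 < Real.log x := Real.log_pos (by linarith)
  refine le_trans ?_ h
  rw [← mul_div_assoc]
  refine div_le_div_of_nonneg_right ?_ hlx.le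
  have h1 : Real.log ((x : ℝ) + 1) ≤ (x : ℝ) / 4 := by
    have h2 : Real.log ((x : ℝ) + 1) = 2 * Real.log (Real.sqrt ((x : ℝ) + 1)) := by
      rw [Real.log_sqrt (by linarith)]
      ring
    have h3 : Real.log (Real.sqrt ((x : ℝ) + 1)) ≤ Real.sqrt ((x : ℝ) + 1) - 1 :=
      Real.log_le_sub_one_of_pos (Real.sqrt_pos.2 (by linarith))
    have h4 : Real.sqrt ((x : ℝ) + 1) ≤ (x : ℝ) / 8 := by
      rw [Real.sqrt_le_left (by linarith)]
      nlinarith
    linarith
  have h2 := Real.log_two_gt_d9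
  nlinarith

/-- Chebyshev's inequality -/
theorem few (b : ℤ) (hb : 2 ≤ b.natAbs) {η ε : ℝ} (hη : 0 < η) (hε : 0 < ε) : ∃ C : ℕ,
    ∀ F : (∀ p : ℕ, ZMod p → ℝ), Adm 3 F → ∀ (u : ℤ) (x N : ℕ), C ≤ x → C * x ≤ N →
      ((((Icc 1 N).filter fun k : ℕ => η * Nat.primeCounting x <
        |∑ p ∈ Qr b u x, F p ((u * b ^ k : ℤ) : ZMod p)|).card : ℕ) : ℝ) ≤ ε * N := by
  classical
  obtain ⟨x₀, hx₀⟩ := pi_lower
  obtain ⟨C, hC2, hC⟩ := Pool.Agent.H73.RK.variance b hb (B := 3) (κ := ε * (η / 4) ^ 2) (by norm_num)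
    (by positivity)
  refine ⟨C + x₀, fun F hF u x N hx hN => ?_⟩
  have h1 := hC F hF u x N (by omega) (le_trans (Nat.mul_le_mul_right _ (by omega)) hN)
  have h2 := hx₀ x (by omega)
  have hx1 : (1 : ℝ) < x := by exact_mod_cast (by omega : 1 < x)
  have hlx : 0 < Real.log x := Real.log_pos hx1
  have hX : 0 < (x : ℝ) / Real.log x := by positivity
  set E := (Icc 1 N).filter fun k : ℕ => η * Nat.primeCounting x <
        |∑ p ∈ Qr b u x, F p ((u * b ^ k : ℤ) : ZMod p)| with hE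
  have h3 : (E.card : ℝ) * ((η / 4) ^ 2 * ((x : ℝ) / Real.log x) ^ 2) ≤
      ∑ k ∈ Icc 1 N, (∑ p ∈ Qr b u x, F p ((u * b ^ k : ℤ) : ZMod p)) ^ 2 := by
    rw [← nsmul_eq_mul, ← sum_const]
    refine le_trans (sum_le_sum (f := fun _ => (η / 4) ^ 2 * ((x : ℝ) / Real.log x) ^ 2)
      (g := fun k => (∑ p ∈ Qr b u x, F p ((u * b ^ k : ℤ) : ZMod p)) ^ 2) fun k hk => ?_)
      (sum_le_sum_of_subset_of_nonneg (filter_subset _ _) fun _ _ _ => sq_nonneg _)
    rw [hE, mem_filter] at hk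
    have h4 : η / 4 * ((x : ℝ) / Real.log x) ≤
        |∑ p ∈ Qr b u x, F p ((u * b ^ k : ℤ) : ZMod p)| := by
      have h5 := mul_le_mul_of_nonneg_left h2 hη.le
      linarith [hk.2]
    rw [← sq_abs (∑ p ∈ Qr b u x, F p ((u * b ^ k : ℤ) : ZMod p)), ← mul_pow]
    exact pow_le_pow_left₀ (by positivity) h4 2
  have h4 : (E.card : ℝ) * ((η / 4) ^ 2 * ((x : ℝ) / Real.log x) ^ 2) ≤
      (ε * N) * ((η / 4) ^ 2 * ((x : ℝ) / Real.log x) ^ 2) := by
    refine (h3.trans h1).trans (le_of_eq ?_)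
    ring
  exact le_of_mul_le_mul_right h4 (by positivity)

end

theorem result (b : ℤ) (hb : 2 ≤ |b|) (η : ℝ) (hη : 0 < η) :
    ∃ C : ℕ, ∀ (u : ℤ) (w : ℕ → ℝ), (∀ p, |w p| ≤ 1) → ∀ (P : Set ℕ) (x N : ℕ), C ≤ x → C * x ≤ N →
      (exceptions b u N (Law η w P x) : ℝ) ≤ η * N := by
  classical
  have hb' : 2 ≤ b.natAbs := by
    have h1 : ((b.natAbs : ℕ) : ℤ) = |b| := Int.natCast_natAbs b
    omega
  obtain ⟨C, hC⟩ := few b hb' hη (show 0 < η / 4 by positivity)
  refine ⟨C, fun u w hw P x N hx hN => ?_⟩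
  set v : ℕ → ℝ := fun p => if p ∈ P then 1 else 0 with hv
  have hv1 : ∀ p, |v p| ≤ 1 := by
    intro p
    rw [hv]
    simp only
    split_ifs <;> simp
  set E : (∀ p : ℕ, ZMod p → ℝ) → Finset ℕ := fun F =>
    (Icc 1 N).filter fun k : ℕ => η * Nat.primeCounting x <
        |∑ p ∈ Pool.Agent.H73.RK.Qr b u x, F p ((u * b ^ k : ℤ) : ZMod p)| with hE
  have hEc : ∀ F, Pool.Agent.H73.KS.Adm 3 F → ((E F).card : ℝ) ≤ η / 4 * N := by
    intro F hF
    have := hC F hF u x N hx hN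
    convert this using 3
  set U : Finset ℕ := (E (fun p a => w p * Pool.Agent.H73.KS.W1 p a) ∪
    E (fun p a => w p * Pool.Agent.H73.KS.W2 p a)) ∪
    (E (fun p a => v p * Pool.Agent.H73.KS.W1 p a) ∪
    E (fun p a => v p * Pool.Agent.H73.KS.W2 p a)) with hU
  have hUc : (U.card : ℝ) ≤ η * N := by
    have h1 : U.card ≤ ((E (fun p a => w p * Pool.Agent.H73.KS.W1 p a)).card +
        (E (fun p a => w p * Pool.Agent.H73.KS.W2 p a)).card) +
        ((E (fun p a => v p * Pool.Agent.H73.KS.W1 p a)).card +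
        (E (fun p a => v p * Pool.Agent.H73.KS.W2 p a)).card) :=
      (card_union_le _ _).trans (Nat.add_le_add (card_union_le _ _) (card_union_le _ _))
    have h2 : (U.card : ℝ) ≤ ((E (fun p a => w p * Pool.Agent.H73.KS.W1 p a)).card +
        (E (fun p a => w p * Pool.Agent.H73.KS.W2 p a)).card : ℝ) +
        ((E (fun p a => v p * Pool.Agent.H73.KS.W1 p a)).card +
        (E (fun p a => v p * Pool.Agent.H73.KS.W2 p a)).card) := by exact_mod_cast h1
    have h3 := hEc _ (Pool.Agent.H73.KS.adm_W1 hw)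
    have h4 := hEc _ (Pool.Agent.H73.KS.adm_W2 hw)
    have h5 := hEc _ (Pool.Agent.H73.KS.adm_W1 hv1)
    have h6 := hEc _ (Pool.Agent.H73.KS.adm_W2 hv1)
    linarith
  have hsub : ((Finset.Icc 1 N).filter fun k : ℕ => ¬ Law η w P x (u * b ^ k)) ⊆ U := by
    intro k hk
    rw [mem_filter] at hk
    obtain ⟨hkN, hbad⟩ := hk
    by_contra hcon
    apply hbad
    have hn : ∀ F, k ∉ E F → |∑ p ∈ Pool.Agent.H73.RK.Qr b u x, F p ((u * b ^ k : ℤ) : ZMod p)| ≤
        η * Nat.primeCounting x := by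
      intro F hF
      by_contra hcon
      push Not at hcon
      exact hF (mem_filter.2 ⟨hkN, hcon⟩)
    rw [hU, mem_union, mem_union, mem_union] at hcon
    push Not at hcon
    have g1 := hn (fun p a => w p * Pool.Agent.H73.KS.W1 p a) hcon.1.1
    have g2 := hn (fun p a => w p * Pool.Agent.H73.KS.W2 p a) hcon.1.2
    have g3 := hn (fun p a => v p * Pool.Agent.H73.KS.W1 p a) hcon.2.1
    have g4 := hn (fun p a => v p * Pool.Agent.H73.KS.W2 p a) hcon.2.2
    exact law_of b u w P x (mem_Icc.1 hkN).1 hη.le v (fun p => rfl) g1 g2 g3 g4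
  have h0 : exceptions b u N (Law η w P x) ≤ U.card := by
    unfold exceptions
    exact card_le_card hsub
  have h1 : (exceptions b u N (Law η w P x) : ℝ) ≤ (U.card : ℝ) := Nat.cast_le.2 h0
  exact h1.trans hUc

end Pool.Agent.Results.MP_6ea630_nt.GeometricProgressions
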