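import Pool.Agent.H73.PH.Asym
import Pool.Agent.H73.KS.Kloos
import Pool.Graph.R_pool_sql_team_seeded_b0a926ef.Results.MP_6ea630_nt.JointPolynomialArguments
import Pool.Graph.R_pool_sql_team_seeded_ab47071d.Results.MP_6ea630_nt.AlmostAllSigns

/-!
# The Kloosterman angles at the values of multiplicative functions such as `φ(n)` and `σ(n)`

Let `F` be a multiplicative function with `F(p) = α p + β` for all primes `p` (`α ≠ 0`) and `|F(n)| ≤ n ^ B`, for
instance Euler's function `φ` or the sum of the divisors `σ`.  For almost all integers `n` with `F(n) ≠ 0` the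
angles of the Kloosterman sums `S(G_i(F(n)), 1; p)`, `G_1, ..., G_m` arbitrary polynomials, over the primes
`p ≤ x` are distributed as in the finite-field model, for ALL `x` from `(log n) ^ κ` (`κ > 1`) to `n ^ c`, and both
signs of `S(F(n), 1; p)` occur for a proportion of at least `1 / 4 - λ - ε` of the primes `p ≤ x`, with
`|S(F(n), 1; p)| > λ √p`.  The values of `φ` and of `σ` are a set of density zero.
-/

set_option autoImplicit false

namespace Pool.Agent.Results.MP_6ea630_nt.MultiplicativeValues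

open Finset Polynomial

/-- The Kloosterman sum `S(n, 1; p)` (a real number). -/
noncomputable def kloosterman (p : ℕ) (n : ℤ) : ℝ :=
  ∑ x ∈ Ico 1 p, Real.cos (2 * Real.pi *
    ((((n : ZMod p) * (x : ZMod p) + (x : ZMod p)⁻¹).val : ℕ) : ℝ) / (p : ℝ))

open Classical in
/-- The angle `θ` in `[0, π]` with `2 p ^ (1 / 2) cos θ = S(n, 1; p)`, and `π / 2` if `p ∣ n`. -/
noncomputable def angle (p : ℕ) (n : ℤ) : ℝ :=
  if (p : ℤ) ∣ n then Real.pi / 2 else Real.arccos (kloosterman p n / (2 * √p))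

/-- The multiplicative functions `F` with `F(p) = α p + β` for all primes `p` and `|F(n)| ≤ n ^ B`. -/
structure LinearAtPrimes (F : ℕ → ℤ) (α β : ℤ) (B : ℕ) : Prop where
  mul : ∀ m n : ℕ, Nat.Coprime m n → F (m * n) = F m * F n
  prime : ∀ p : ℕ, p.Prime → F p = α * p + β
  bound : ∀ n : ℕ, 1 ≤ n → |F n| ≤ (n : ℤ) ^ B

/-- The primes `p ≤ x`. -/
def primes (x : ℕ) : Finset ℕ := (range (x + 1)).filter Nat.Prime

/-- The sum over the primes `p ≤ x` of `f_p(θ_1, ..., θ_m)`, where `θ_i` is the angle of `S(G_i(a), 1; p)`, minus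
the sum over these primes of the mean of `f_p` over the angles of `S(G_i(t), 1; p)` for the residues `t` modulo
`p`. -/
noncomputable def deviation {m : ℕ} (G : Fin m → ℤ[X]) (f : ℕ → (Fin m → ℝ) → ℝ) (a : ℤ)
    (x : ℕ) : ℝ :=
  ∑ p ∈ primes x, (f p (fun i => angle p ((G i).eval a)) -
    (∑ t ∈ range p, f p (fun i => angle p ((G i).eval (t : ℤ)))) / p)

open Classical in
/-- The number of the primes `p ≤ x`, `p ∤ a`, with `s S(a, 1; p) > l √p` (`s = 1` or `-1`). -/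
noncomputable def signCount (s l : ℝ) (a : ℤ) (x : ℕ) : ℕ :=
  ((primes x).filter fun p : ℕ => ¬ (p : ℤ) ∣ a ∧ l * √p < s * kloosterman p a).card

/-- The number of the positive integers `n ≤ N` with `F(n) ≠ 0` such that `bad (F n) x` for some `x` between
`(log N) ^ κ` and `N ^ c`. -/
noncomputable def exceptions (F : ℕ → ℤ) (κ c : ℝ) (N : ℕ) (bad : ℤ → ℕ → Prop) : ℕ :=
  {n : ℕ | 1 ≤ n ∧ n ≤ N ∧ F n ≠ 0 ∧ ∃ x : ℕ, Real.log N ^ κ ≤ x ∧ (x : ℝ) ≤ (N : ℝ) ^ c ∧
    bad (F n) x}.ncard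

/-- The law for the Kloosterman sums at the values of `F`. -/
def Law (F : ℕ → ℤ) : Prop :=
  ∀ ε η κ : ℝ, 0 < ε → 0 < η → 1 < κ → ∃ c : ℝ, 0 < c ∧ ∃ N₀ : ℕ, ∀ N : ℕ, N₀ ≤ N →
    (∀ (m : ℕ) (G : Fin m → ℤ[X]) (f : ℕ → (Fin m → ℝ) → ℝ), (∀ p θ, |f p θ| ≤ 1) →
      (exceptions F κ c N (fun a x => ε * Nat.primeCounting x < |deviation G f a x|) : ℝ) ≤
        η * N) ∧
    (∀ s l : ℝ, (s = 1 ∨ s = -1) → 0 ≤ l →
      (exceptions F κ c N
        (fun a x => (signCount s l a x : ℝ) < (1 / 4 - l - ε) * Nat.primeCounting x) : ℝ) ≤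
        η * N)

section

open Pool.Agent.H73.PH Pool.Agent.TH375.KL
open Pool.Agent.Results.MP_6ea630_nt.JointPolynomialArguments (angle_congr)
open Pool.Agent.Results.MP_6ea630_nt.AlmostAllSigns (ind ind_pos ind_neg ind_zero ind_le klz klz_eq
  cast_eq_zero)

theorem angle_eq (p : ℕ) (n : ℤ) : angle p n =
    Pool.Agent.Results.MP_6ea630_nt.JointPolynomialArguments.angle p n := rfl

/-- the function of the residue -/
noncomputable def hh {m : ℕ} (G : Fin m → ℤ[X]) (f : ℕ → (Fin m → ℝ) → ℝ) (p : ℕ)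
    (t : ZMod p) : ℝ := f p (fun i => angle p ((G i).eval (t.val : ℤ)))

theorem hh_int {m : ℕ} (G : Fin m → ℤ[X]) (f : ℕ → (Fin m → ℝ) → ℝ) {p : ℕ} (hp : p.Prime)
    (a : ℤ) : hh G f p (a : ZMod p) = f p (fun i => angle p ((G i).eval a)) := by
  have : NeZero p := ⟨hp.ne_zero⟩
  unfold hh
  congr 1
  funext i
  rw [angle_eq, angle_eq]
  apply angle_congr
  refine dvd_trans ?_ (Polynomial.sub_dvd_eval_sub _ _ (G i))
  rw [← ZMod.intCast_zmod_eq_zero_iff_dvd]
  push_cast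
  rw [ZMod.natCast_val, ZMod.cast_id', id, sub_self]

theorem dev_hh {m : ℕ} (G : Fin m → ℤ[X]) (f : ℕ → (Fin m → ℝ) → ℝ) (a : ℤ) (x : ℕ) :
    dev (hh G f) x a = deviation G f a x := by
  unfold dev deviation
  refine sum_congr rfl fun p hp => ?_
  have hpp : p.Prime := (mem_filter.1 hp).2
  rw [hh_int G f hpp a]
  unfold nu
  congr 2
  refine sum_congr rfl fun t _ => ?_
  have := hh_int G f hpp (t : ℤ)
  rw [← this]
  norm_cast

/-- the sum of the vertical means for the signs -/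
theorem nu_ge {p : ℕ} (hp : p.Prime) {s l : ℝ} (hs : s = 1 ∨ s = -1) (hl : 0 ≤ l) :
    1 / 4 - l - 2 * (1 / √(p : ℝ)) ≤ nu (ind fun p a => l * √p < s * klz p a) p := by
  classical
  have hs2 : s ^ 2 = 1 := by rcases hs with h | h <;> rw [h] <;> norm_num
  set Q : ∀ p : ℕ, ZMod p → Prop := fun p a => l * √p < s * klz p a with hQ
  have : Fact p.Prime := ⟨hp⟩
  have hp0 : (0 : ℝ) < p := by exact_mod_cast hp.pos
  have hp1 : (1 : ℝ) ≤ p := by exact_mod_cast hp.one_le
  have hs1 : 1 ≤ √(p : ℝ) := Real.one_le_sqrt.2 hp1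
  unfold nu
  rw [le_div_iff₀ hp0, sum_range_zmod (p := p) (f := ind Q p)]
  have h1 := sign_mean (p := p) hs2 hl
  have h2 : ∑ a : ZMod p, (if l * Real.sqrt p < s * rk p a 1 then (1 : ℝ) else 0) ≤
      ∑ a : ZMod p, (ind Q p a + if a = 0 then 1 else 0) := by
    refine Finset.sum_le_sum fun a _ => ?_
    have hQa : Q p a ↔ l * Real.sqrt p < s * rk p a 1 := by
      rw [hQ]
      simp only
      rw [klz_eq]
    by_cases ha : a = 0
    · rw [if_pos ha, ha, ind_zero]
      split_ifs <;> norm_num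
    · rw [if_neg ha, add_zero]
      by_cases h3 : l * Real.sqrt p < s * rk p a 1
      · rw [if_pos h3, ind_pos ⟨ha, hQa.2 h3⟩]
      · rw [if_neg h3, ind_neg fun h => h3 (hQa.1 h.2)]
  rw [Finset.sum_add_distrib, Finset.sum_ite_eq'] at h2
  simp only [Finset.mem_univ, if_true] at h2
  have h4 : 1 ≤ 1 / √(p : ℝ) * p := by
    have : 1 / √(p : ℝ) * p = √p := by
      rw [div_mul_eq_mul_div, one_mul, Real.div_sqrt]
    rw [this]
    exact hs1
  nlinarith

theorem sum_sqrt (x : ℕ) : ∑ p ∈ Ioc 0 x, 1 / √(p : ℝ) ≤ 2 * √x := by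
  induction x with
  | zero => simp
  | succ n ih =>
    rw [sum_Ioc_succ_top (Nat.zero_le n)]
    have h1 : 0 < √((n + 1 : ℕ) : ℝ) := Real.sqrt_pos.2 (by positivity)
    have h2 : √((n + 1 : ℕ) : ℝ) ^ 2 = (n : ℝ) + 1 := by
      rw [Real.sq_sqrt (by positivity)]
      push_cast
      ring
    have h3 : √(n : ℝ) ^ 2 = n := Real.sq_sqrt (Nat.cast_nonneg _)
    have h4 : 1 / √((n + 1 : ℕ) : ℝ) ≤ 2 * √((n + 1 : ℕ) : ℝ) - 2 * √n := by
      rw [div_le_iff₀ h1]
      nlinarith [sq_nonneg (√((n + 1 : ℕ) : ℝ) - √n)]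
    linarith

theorem sqrt_le {ε : ℝ} (hε : 0 < ε) : ∃ x₀ : ℕ, ∀ x : ℕ, x₀ ≤ x →
    4 * √(x : ℝ) ≤ ε * Nat.primeCounting x := by
  obtain ⟨C, hC, hcheb⟩ := cheb
  obtain ⟨x₀, hx₀⟩ := Filter.eventually_atTop.1
    ((((isLittleO_log_rpow_atTop (r := 1 / 2) (by norm_num)).tendsto_div_nhds_zero).comp
      tendsto_natCast_atTop_atTop).eventually_lt_const (u := ε / (4 * C)) (by positivity))
  refine ⟨max x₀ 2, fun x hx => ?_⟩
  have h1 := hx₀ x ((le_max_left _ _).trans hx)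
  have hx2 : 2 ≤ x := (le_max_right _ _).trans hx
  have h2 := hcheb x hx2
  have hx0 : (0 : ℝ) < x := by
    have : 0 < x := by omega
    exact_mod_cast this
  simp only [Function.comp_apply] at h1
  rw [← Real.sqrt_eq_rpow] at h1
  have hs : 0 < √(x : ℝ) := Real.sqrt_pos.2 hx0
  rw [div_lt_iff₀ hs] at h1
  have hpi : (0 : ℝ) ≤ Nat.primeCounting x := Nat.cast_nonneg _
  have h3 : √(x : ℝ) * √(x : ℝ) = x := Real.mul_self_sqrt hx0.le
  have h4 : √(x : ℝ) * √(x : ℝ) ≤ (Nat.primeCounting x * ε / 4) * √(x : ℝ) := by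
    rw [h3]
    refine h2.trans ?_
    calc C * (Nat.primeCounting x * Real.log x) ≤
          C * (Nat.primeCounting x * (ε / (4 * C) * √(x : ℝ))) := by gcongr
      _ = _ := by field_simp
  have h5 := le_of_mul_le_mul_right h4 hs
  linarith

theorem law {F : ℕ → ℤ} {α β : ℤ} {B : ℕ} (hα : α ≠ 0) (hF : MultLin F α β B) : Law F := by
  classical
  intro ε η κ hε hη hκ
  obtain ⟨c, hc, N₁, hmain⟩ := main hα hF (half_pos hε) hη hκ
  obtain ⟨x₀, hx₀⟩ := sqrt_le (half_pos hε)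
  have hlog : Filter.Tendsto (fun N : ℕ => Real.log (N : ℝ) ^ κ) Filter.atTop Filter.atTop :=
    (tendsto_rpow_atTop (by linarith)).comp (Real.tendsto_log_atTop.comp
      tendsto_natCast_atTop_atTop)
  obtain ⟨N₂, hN₂⟩ := Filter.eventually_atTop.1 (hlog.eventually_ge_atTop (x₀ : ℝ))
  refine ⟨c, hc, max N₁ N₂, fun N hN => ⟨fun m G f hf => ?_, fun s l hs hl => ?_⟩⟩
  · unfold exceptions
    have hfin : {n : ℕ | 1 ≤ n ∧ n ≤ N ∧ F n ≠ 0 ∧ ∃ x : ℕ, Real.log N ^ κ ≤ x ∧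
        (x : ℝ) ≤ (N : ℝ) ^ c ∧ ε * Nat.primeCounting x < |deviation G f (F n) x|}.Finite :=
      (Set.finite_Iic N).subset fun n hn => hn.2.1
    rw [Set.ncard_eq_toFinset_card _ hfin]
    refine hmain N ((le_max_left _ _).trans hN) (hh G f) (fun p t => hf p _) _ fun n hn => ?_
    obtain ⟨h1, h2, h3, x, h4, h5, h6⟩ := (Set.Finite.mem_toFinset hfin).1 hn
    refine ⟨h1, h2, h3, x, h4, h5, ?_⟩
    rw [dev_hh]
    refine lt_of_le_of_lt ?_ h6
    have : (0 : ℝ) ≤ Nat.primeCounting x := Nat.cast_nonneg _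
    nlinarith
  · unfold exceptions
    have hfin : {n : ℕ | 1 ≤ n ∧ n ≤ N ∧ F n ≠ 0 ∧ ∃ x : ℕ, Real.log N ^ κ ≤ x ∧
        (x : ℝ) ≤ (N : ℝ) ^ c ∧ (signCount s l (F n) x : ℝ) <
          (1 / 4 - l - ε) * Nat.primeCounting x}.Finite :=
      (Set.finite_Iic N).subset fun n hn => hn.2.1
    rw [Set.ncard_eq_toFinset_card _ hfin]
    set Q : ∀ p : ℕ, ZMod p → Prop := fun p a => l * √p < s * klz p a with hQ
    refine hmain N ((le_max_left _ _).trans hN) (ind Q) (ind_le Q) _ fun n hn => ?_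
    obtain ⟨h1, h2, h3, x, h4, h5, h6⟩ := (Set.Finite.mem_toFinset hfin).1 hn
    refine ⟨h1, h2, h3, x, h4, h5, ?_⟩
    have hxx : x₀ ≤ x := by
      have := (hN₂ N ((le_max_right _ _).trans hN)).trans h4
      exact_mod_cast this
    have e1 : ∑ p ∈ Pr x, ind Q p ((F n : ℤ) : ZMod p) = (signCount s l (F n) x : ℝ) :=
      Pool.Agent.Results.MP_6ea630_nt.AlmostAllSigns.sum_ind Q (fun p => Iff.rfl) x
    have e2 : (1 / 4 - l) * (Nat.primeCounting x : ℝ) - 4 * √(x : ℝ) ≤ ∑ p ∈ Pr x, nu (ind Q) p := by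
      have g1 : ∑ p ∈ Pr x, (1 / 4 - l - 2 * (1 / √(p : ℝ))) ≤ ∑ p ∈ Pr x, nu (ind Q) p :=
        sum_le_sum fun p hp => nu_ge (mem_filter.1 hp).2 hs hl
      rw [sum_sub_distrib, sum_const, nsmul_eq_mul, ← mul_sum, card_Pr] at g1
      have g2 : ∑ p ∈ Pr x, 1 / √(p : ℝ) ≤ ∑ p ∈ Ioc 0 x, 1 / √(p : ℝ) := by
        refine sum_le_sum_of_subset_of_nonneg ?_ fun _ _ _ => by positivity
        intro p hp
        have := mem_filter.1 hp
        rw [mem_Ioc]
        have h7 := mem_range.1 this.1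
        exact ⟨this.2.pos, by omega⟩
      have g3 := sum_sqrt x
      linarith
    have e3 := hx₀ x hxx
    have e5 : dev (ind Q) x (F n) < -(ε / 2 * Nat.primeCounting x) := by
      unfold dev
      rw [sum_sub_distrib, e1]
      have : (1 / 4 - l - ε) * (Nat.primeCounting x : ℝ) =
        (1 / 4 - l) * (Nat.primeCounting x : ℝ) - ε * Nat.primeCounting x := by ring
      linarith
    have e6 := neg_abs_le (dev (ind Q) x (F n))
    linarith

theorem phi : MultLin (fun n => (Nat.totient n : ℤ)) 1 (-1) 1 := by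
  refine ⟨fun m n h => ?_, fun p hp => ?_, fun n _ => ?_⟩
  · rw [Nat.totient_mul h]
    push_cast
    rfl
  · rw [Nat.totient_prime hp, Nat.cast_sub hp.one_le]
    push_cast
    ring
  · rw [pow_one, Nat.abs_cast]
    exact_mod_cast Nat.totient_le n

theorem sig : MultLin (fun n => (ArithmeticFunction.sigma 1 n : ℤ)) 1 1 2 := by
  refine ⟨fun m n h => ?_, fun p hp => ?_, fun n hn => ?_⟩
  · rw [ArithmeticFunction.isMultiplicative_sigma.map_mul_of_coprime h]
    push_cast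
    rfl
  · rw [ArithmeticFunction.sigma_one_apply, hp.sum_divisors]
    push_cast
    ring
  · rw [Nat.abs_cast]
    have h1 : ArithmeticFunction.sigma 1 n ≤ n ^ 2 := by
      rw [ArithmeticFunction.sigma_one_apply]
      calc ∑ d ∈ n.divisors, d ≤ ∑ d ∈ n.divisors, n :=
            sum_le_sum fun d hd => Nat.divisor_le hd
        _ = n.divisors.card * n := by rw [sum_const, smul_eq_mul]
        _ ≤ n * n := Nat.mul_le_mul_right _ (Nat.card_divisors_le_self n)
        _ = n ^ 2 := (sq n).symm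
    exact_mod_cast h1

end

/-- The law for the Kloosterman sums at the values of the multiplicative functions which are linear at the
primes, in particular at the values of `φ` and of `σ`. -/
theorem result :
    (∀ (F : ℕ → ℤ) (α β : ℤ) (B : ℕ), α ≠ 0 → LinearAtPrimes F α β B → Law F) ∧
    Law (fun n => (Nat.totient n : ℤ)) ∧ Law (fun n => (ArithmeticFunction.sigma 1 n : ℤ)) :=
  ⟨fun _ _ _ _ hα hF => law hα ⟨hF.mul, hF.prime, hF.bound⟩, law one_ne_zero phi,
    law one_ne_zero sig⟩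

end Pool.Agent.Results.MP_6ea630_nt.MultiplicativeValues
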